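import Pool.Agent.R550.GB.Graph
import Pool.Agent.H671R2.PolyAuto

/-!
# Building graphs from lists of labels
-/

namespace Pool.Agent.R538.MS

open Pool.Agent.NPC Pool.Agent.R550.GB

variable {β : Type}

/-- the adjacency lists of the graph on the list `vs` with the adjacency test `T` -/
def mkA (vs : List β) (T : β → β → Bool) : List (List ℕ) :=
  vs.map fun x => (vs.zipIdx.filter fun p => T x p.1).map fun p => p.2

theorem mkA_length (vs : List β) (T : β → β → Bool) :
    (mkA vs T).length = vs.length := by simp [mkA]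

theorem mkA_adj (vs : List β) (T : β → β → Bool) (u v : Fin (mkA vs T).length) :
    (graph (mkA vs T)).Adj u v ↔ u ≠ v ∧
      (T (vs[u]'(by simpa [mkA] using u.2)) (vs[v]'(by simpa [mkA] using v.2)) = true ∨
       T (vs[v]'(by simpa [mkA] using v.2)) (vs[u]'(by simpa [mkA] using u.2)) = true) := by
  have key : ∀ u v : Fin (mkA vs T).length, (v : ℕ) ∈ (mkA vs T)[u] ↔
      T (vs[u]'(by simpa [mkA] using u.2)) (vs[v]'(by simpa [mkA] using v.2)) = true := by
    intro u v
    have hv : (v : ℕ) < vs.length := by simpa [mkA] using v.2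
    rw [Fin.getElem_fin]
    simp only [mkA, List.getElem_map, List.mem_map, List.mem_filter]
    constructor
    · rintro ⟨⟨y, i⟩, ⟨h1, h2⟩, h3⟩
      rw [List.mem_zipIdx_iff_getElem?] at h1
      simp only at h1 h2 h3
      subst h3
      rw [List.getElem?_eq_getElem hv] at h1
      simp only [Option.some.injEq] at h1
      subst h1
      exact h2
    · intro h
      refine ⟨(vs[(v : ℕ)], (v : ℕ)), ⟨?_, h⟩, rfl⟩
      rw [List.mem_zipIdx_iff_getElem?]
      exact List.getElem?_eq_getElem hv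
  unfold graph
  rw [SimpleGraph.fromRel_adj, key, key]

/-- **Labels.** The vertices of the graph correspond to the labels. -/
theorem exists_labA {vs : List β} (hvs : vs.Nodup) (T : β → β → Bool) :
    ∃ lab : Fin (mkA vs T).length → β, Function.Injective lab ∧
      (∀ v, lab v ∈ vs) ∧
      (∀ x ∈ vs, ∃ v, lab v = x) ∧
      ∀ u v, (graph (mkA vs T)).Adj u v ↔
        u ≠ v ∧ (T (lab u) (lab v) = true ∨ T (lab v) (lab u) = true) := by
  have hlen : (mkA vs T).length = vs.length := mkA_length _ _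
  refine ⟨fun v => vs[(v : ℕ)]'(by rw [← hlen]; exact v.2), ?_, ?_, ?_, ?_⟩
  · intro u v h
    exact Fin.ext ((List.Nodup.getElem_inj_iff hvs).1 h)
  · intro v
    exact List.getElem_mem _
  · intro x hx
    obtain ⟨j, hj, hj'⟩ := List.getElem_of_mem hx
    exact ⟨⟨j, by rw [hlen]; exact hj⟩, hj'⟩
  · intro u v
    exact mkA_adj vs T u v

theorem poly_mkA {α : Type} [TEnc α] [TEnc β] {vs : α → List β} {t : α → β → β → Bool}
    (hvs : NPC.Poly vs) (ht : NPC.Poly (fun p : (α × β) × β => t p.1.1 p.1.2 p.2)) :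
    NPC.Poly (fun a => mkA (vs a) (t a)) := by
  unfold mkA
  refine NPC.Poly.map (F := fun a x => ((vs a).zipIdx.filter fun p => t a x p.1).map
    fun p => p.2) hvs ?_
  refine NPC.Poly.map (F := fun (_ : α × β) (p : β × ℕ) => p.2) ?_
    (by fun_prop)
  refine NPC.Poly.filter (p := fun (z : α × β) (p : β × ℕ) => t z.1 z.2 p.1)
    (NPC.Poly.zipIdx (hvs.comp (NPC.Poly.fst NPC.Poly.id))) ?_
  exact ht.comp (NPC.Poly.pair (NPC.Poly.pair (NPC.Poly.fst (NPC.Poly.fst NPC.Poly.id))
    (NPC.Poly.snd (NPC.Poly.fst NPC.Poly.id))) (NPC.Poly.fst (NPC.Poly.snd NPC.Poly.id)))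

end Pool.Agent.R538.MS
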