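import Pool.Agent.R538.MS.Gad

/-!
# Correctness of the reduction
-/

namespace Pool.Agent.R538.MS

open Finset Pool.Agent.NPC.H632 Pool.Agent.H557R2.Tri

variable {I : List (ℕ × ℕ × ℕ) × ℕ}
variable {V : Type} [Fintype V] {G : SimpleGraph V} {lab : V → Lab}

theorem Gad.not_adj (h : Gad I G lab) {u v : V} (huv : (lab u).1 = (lab v).1) : ¬ G.Adj u v := by
  intro h1
  rcases (h.adj u v).1 h1 with h2 | h2
  · exact ed_ne h2 huv
  · exact ed_ne h2 huv.symm

theorem Gad.lab0 (h : Gad I G lab) {v : V} (hv : (lab v).1 = 0) :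
    ∃ i < I.1.length, lab v = (0, i, 0, 0) := by
  have hok := h.ok v
  rcases hlab : lab v with ⟨t, a, b, c⟩
  rw [hlab] at hok hv
  simp only at hv
  subst hv
  simp [okL] at hok
  obtain ⟨h1, rfl, rfl⟩ := hok
  exact ⟨a, h1, rfl⟩

theorem Gad.lab1 (h : Gad I G lab) {v : V} (hv : (lab v).1 = 1) :
    ∃ j < 3 * I.2, lab v = (1, j, 0, 0) := by
  have hok := h.ok v
  rcases hlab : lab v with ⟨t, a, b, c⟩
  rw [hlab] at hok hv
  simp only at hv
  subst hv
  simp [okL] at hok
  obtain ⟨h1, rfl, rfl⟩ := hok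
  exact ⟨a, by omega, rfl⟩

theorem Gad.lab2 (h : Gad I G lab) {v : V} (hv : (lab v).1 = 2) :
    ∃ j < 3 * I.2, ∃ l, lab v = (2, j, l, 0) := by
  have hok := h.ok v
  rcases hlab : lab v with ⟨t, a, b, c⟩
  rw [hlab] at hok hv
  simp only at hv
  subst hv
  simp [okL] at hok
  obtain ⟨h1, h2, rfl⟩ := hok
  exact ⟨a, by omega, b, rfl⟩

theorem Gad.lab3 (h : Gad I G lab) {v : V} (hv : (lab v).1 = 3) :
    ∃ i < I.1.length, ∃ s < 2, lab v = (3, i, s, 0) := by
  have hok := h.ok v
  rcases hlab : lab v with ⟨t, a, b, c⟩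
  rw [hlab] at hok hv
  simp only at hv
  subst hv
  simp [okL] at hok
  obtain ⟨h1, h2, rfl⟩ := hok
  exact ⟨a, by omega, b, by omega, rfl⟩

open Classical in
/-- the vertices of the elements -/
noncomputable def WW (lab : V → Lab) : Finset V := univ.filter fun v => (lab v).1 = 1

theorem mem_WW {v : V} : v ∈ WW lab ↔ (lab v).1 = 1 := by
  unfold WW
  simp

theorem Gad.card_WW (h : Gad I G lab) : (WW lab).card = 3 * I.2 := by
  classical
  unfold WW
  rw [h.card_eq (fun v => (lab v).1 = 1) ((List.range (3 * I.2)).map fun j => (1, j, 0, 0))]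
  · simp
  · refine List.Nodup.map (fun a b hab => ?_) List.nodup_range
    simpa using hab
  · intro y
    simp only [List.mem_map, List.mem_range]
    constructor
    · rintro ⟨j, hj, rfl⟩
      obtain ⟨v, hv⟩ := h.ex (1, j, 0, 0) (by simp [okL]; omega)
      exact ⟨v, hv, by rw [hv]⟩
    · rintro ⟨v, rfl, hv⟩
      obtain ⟨j, hj, hjv⟩ := h.lab1 hv
      exact ⟨j, hj, hjv.symm⟩

theorem exists_nb {x : Sym2 V → ℕ} {v : V} (h : 1 ≤ col G x v) :
    ∃ u, G.Adj v u ∧ 1 ≤ x s(v, u) := by
  classical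
  rw [col_eq_nb] at h
  by_contra hcon
  push Not at hcon
  have h1 : ∑ u ∈ univ.filter (fun u => G.Adj v u), x s(v, u) = 0 := by
    refine Finset.sum_eq_zero fun u hu => ?_
    simp only [mem_filter, mem_univ, true_and] at hu
    have := hcon u hu
    omega
  omega

theorem le_col {x : Sym2 V → ℕ} {v u : V} (h : G.Adj v u) : x s(v, u) ≤ col G x v := by
  classical
  rw [col_eq_nb]
  exact Finset.single_le_sum (f := fun u => x s(v, u)) (fun _ _ => Nat.zero_le _) (by simp [h])

open Classical in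
/-- **Soundness.** -/
theorem Gad.sound (hI : Pr I.1 I.2) (h : Gad I G lab) {l : Sym2 V → ℕ} (hl : Proper G l)
    (hs : lsum G l ≤ G.edgeFinset.card + 3 * I.2) : X3C I := by
  set x : Sym2 V → ℕ := fun e => l e - 1 with hx
  have hlx : ∀ e ∈ G.edgeSet, l e = 1 + x e := by
    intro e he
    have := hl.1 e he
    simp only [hx]
    omega
  have hsx : lsum G x ≤ 3 * I.2 := by
    rw [lsum_congr hlx, lsum_one_add] at hs
    omega
  have hc : ∀ v, col G l v = G.degree v + col G x v := by
    intro v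
    rw [col_congr hlx, col_one_add]
  have hp : ∀ u v, G.Adj u v → G.degree u + col G x u ≠ G.degree v + col G x v := by
    intro u v huv
    rw [← hc, ← hc]
    exact hl.2 u v huv
  have hWind : ∀ u ∈ WW lab, ∀ v ∈ WW lab, ¬ G.Adj u v := by
    intro u hu v hv
    exact h.not_adj ((mem_WW.1 hu).trans (mem_WW.1 hv).symm)
  -- every element is raised
  have hW1 : ∀ v ∈ WW lab, 1 ≤ col G x v := by
    intro v hv
    by_contra h0
    have h0 : col G x v = 0 := by omega
    obtain ⟨j, hj, hjv⟩ := h.lab1 (mem_WW.1 hv)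
    set B : Finset V := univ.filter fun g => (lab g).1 = 2 ∧ (lab g).2.1 = j with hB
    have hBc : B.card = 3 * I.2 + 1 := by
      rw [hB, h.card_eq (fun g => (lab g).1 = 2 ∧ (lab g).2.1 = j)
        ((List.range (3 * I.2 + 1)).map fun l => (2, j, l, 0))]
      · simp
      · refine List.Nodup.map (fun a b hab => ?_) List.nodup_range
        simpa using hab
      · intro y
        simp only [List.mem_map, List.mem_range]
        constructor
        · rintro ⟨l, hl, rfl⟩
          obtain ⟨v, hv⟩ := h.ex (2, j, l, 0) (by simp [okL]; omega)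
          exact ⟨v, hv, by rw [hv]; simp⟩
        · rintro ⟨v, rfl, hv⟩
          have hok := h.ok v
          rcases hlab : lab v with ⟨t, a, b, c⟩
          rw [hlab] at hok hv
          simp only at hv
          obtain ⟨rfl, rfl⟩ := hv
          simp [okL] at hok
          obtain ⟨h1, h2, rfl⟩ := hok
          exact ⟨b, by omega, rfl⟩
    have hBi : ∀ u ∈ B, ∀ v ∈ B, ¬ G.Adj u v := by
      intro u hu v hv
      rw [hB, mem_filter] at hu hv
      exact h.not_adj (hu.2.1.trans hv.2.1.symm)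
    have hB1 : ∀ g ∈ B, 1 ≤ col G x g := by
      intro g hg
      rw [hB, mem_filter] at hg
      obtain ⟨j', hj', l, hgl⟩ := h.lab2 hg.2.1
      have hjj : j' = j := by
        have := hg.2.2
        rw [hgl] at this
        exact this
      subst hjj
      have hadj : G.Adj v g := by
        rw [h.adj, hjv, hgl]
        left
        simp [ed]
      have h2 := hp v g hadj
      rw [h.deg_w hjv, h.deg_g hgl, h0] at h2
      omega
    have h3 : B.card ≤ ∑ g ∈ B, col G x g := by
      rw [Finset.card_eq_sum_ones]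
      exact Finset.sum_le_sum hB1
    have h4 := indep_le hBi x
    omega
  obtain ⟨hW, hoff⟩ := indep_tight hWind (by rw [h.card_WW]; exact hsx) hW1
  have hoff' : ∀ u v, G.Adj u v → (lab u).1 ≠ 1 → (lab v).1 ≠ 1 → x s(u, v) = 0 := by
    intro u v huv hu hv
    refine hoff s(u, v) huv fun w hw hwe => ?_
    rw [mem_WW] at hw
    rcases Sym2.mem_iff.1 hwe with rfl | rfl
    · exact hu hw
    · exact hv hw
  -- every element is raised from a triple
  have hcov : ∀ j < 3 * I.2, ∃ u, ∃ i, lab u = (0, i, 0, 0) ∧ j ∈ el (tr I i) ∧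
      1 ≤ col G x u := by
    intro j hj
    obtain ⟨w, hw⟩ := h.ex (1, j, 0, 0) (by simp [okL]; omega)
    have hwW : w ∈ WW lab := mem_WW.2 (by rw [hw])
    obtain ⟨u, hwu, hxu⟩ := exists_nb (hW1 w hwW)
    have hor : (lab u).1 = 0 ∨ (lab u).1 = 2 := by
      have h1 := (h.adj w u).1 hwu
      rw [hw] at h1
      simp only [ed, Bool.or_eq_true, Bool.and_eq_true, decide_eq_true_eq] at h1
      omega
    have hxu' : x s(u, w) = 1 := by
      have h1 := le_col (x := x) hwu
      rw [hW w hwW] at h1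
      rw [Sym2.eq_swap]
      omega
    rcases hor with hu0 | hu2
    · obtain ⟨i, hi, hiu⟩ := h.lab0 hu0
      refine ⟨u, i, hiu, ?_, ?_⟩
      · have h1 := (h.adj w u).1 hwu
        rw [hw, hiu] at h1
        simpa [ed] using h1
      · have h1 := le_col (x := x) hwu.symm
        omega
    · exfalso
      obtain ⟨j', hj', l, hul⟩ := h.lab2 hu2
      have hjj : j' = j := by
        have h1 := (h.adj w u).1 hwu
        rw [hw, hul] at h1
        simpa [ed] using h1
      subst hjj
      have h2 : col G x u = 1 := by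
        rw [col_eq_nb, Finset.sum_eq_single w]
        · exact hxu'
        · intro z hz hzw
          simp only [mem_filter, mem_univ, true_and] at hz
          refine hoff' u z hz (by rw [hul]; simp) fun hz1 => hzw ?_
          obtain ⟨k, hk, hkz⟩ := h.lab1 hz1
          have h3 := (h.adj u z).1 hz
          rw [hul, hkz] at h3
          have h4 : j' = k := by simpa [ed] using h3
          apply h.inj
          rw [hkz, hw, h4]
        · intro h3
          exact absurd (by simpa using hwu.symm) h3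
      have h3 := hp w u hwu
      rw [h.deg_w hw, h.deg_g hul, h2, hW w hwW] at h3
      exact h3 rfl
  -- the triples are raised by `0` or by at least `3`
  have hU : ∀ u i, lab u = (0, i, 0, 0) → 1 ≤ col G x u → 3 ≤ col G x u := by
    intro u i hu h1
    have hok := h.ok u
    rw [hu] at hok
    have hi : i < I.1.length := by simpa [okL] using hok
    have key : ∀ s < 2, col G x u ≠ s + 1 := by
      intro s hs h2
      obtain ⟨b, hb⟩ := h.ex (3, i, s, 0) (by simp [okL, hi]; omega)
      have hadj : G.Adj u b := by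
        rw [h.adj, hu, hb]
        left
        simp [ed]
      have hb0 : col G x b = 0 := by
        rw [col_eq_nb]
        refine Finset.sum_eq_zero fun z hz => ?_
        simp only [mem_filter, mem_univ, true_and] at hz
        refine hoff' b z hz (by rw [hb]; simp) ?_
        have h3 := (h.adj b z).1 hz
        rw [hb] at h3
        simp only [ed, Bool.or_eq_true, Bool.and_eq_true, decide_eq_true_eq] at h3
        omega
      have h3 := hp u b hadj
      rw [h.deg_u hI hu, h.deg_b hb, hb0, h2] at h3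
      omega
    have h2 := key 0 (by norm_num)
    have h3 := key 1 (by norm_num)
    omega
  -- the exact cover
  set Ch : Finset V := univ.filter fun u => (lab u).1 = 0 ∧ 1 ≤ col G x u with hCh
  have hCi : ∀ u ∈ Ch, ∀ v ∈ Ch, ¬ G.Adj u v := by
    intro u hu v hv
    rw [hCh, mem_filter] at hu hv
    exact h.not_adj (hu.2.1.trans hv.2.1.symm)
  have hC3 : Ch.card * 3 ≤ ∑ u ∈ Ch, col G x u := by
    rw [← smul_eq_mul]
    refine Finset.card_nsmul_le_sum _ _ _ fun u hu => ?_
    rw [hCh, mem_filter] at hu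
    obtain ⟨i, hi, hiu⟩ := h.lab0 hu.2.1
    exact hU u i hiu hu.2.2
  have hC4 := indep_le hCi x
  have hcard : Ch.card ≤ I.2 := by omega
  have hcv : ∀ j < 3 * I.2, ∃ T ∈ Ch.toList.map (fun u => tr I (lab u).2.1), j ∈ el T := by
    intro j hj
    obtain ⟨u, i, hu, hji, h1⟩ := hcov j hj
    refine ⟨tr I i, List.mem_map.2 ⟨u, mem_toList.2 ?_, by rw [hu]⟩, hji⟩
    rw [hCh, mem_filter]
    exact ⟨mem_univ _, by rw [hu], h1⟩
  obtain ⟨h1, h2⟩ := Pool.Agent.R550.TD.cover_card _ hcv
  rw [List.length_map, length_toList] at h1 h2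
  refine ⟨Ch.toList.map (fun u => tr I (lab u).2.1), ?_, h2 (by omega)⟩
  intro T hT
  obtain ⟨u, hu, rfl⟩ := List.mem_map.1 hT
  have hu' := (mem_filter.1 (mem_toList.1 hu)).2
  obtain ⟨i, hi, hiu⟩ := h.lab0 hu'.1
  rw [hiu]
  exact tr_mem hi

open Classical in
/-- **Completeness.** -/
theorem Gad.complete (hI : Pr I.1 I.2) (h : Gad I G lab) (hX : X3C I) :
    ∃ l, Proper G l ∧ lsum G l ≤ G.edgeFinset.card + 3 * I.2 := by
  obtain ⟨C, hC, hperm⟩ := hX
  have hidx : ∀ T : ℕ × ℕ × ℕ, ∃ i : ℕ, T ∈ C → i < I.1.length ∧ tr I i = T := by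
    intro T
    by_cases hT : T ∈ C
    · obtain ⟨i, hi, hiT⟩ := List.mem_iff_getElem.1 (hC T hT)
      refine ⟨i, fun _ => ⟨hi, ?_⟩⟩
      unfold tr
      rw [List.getD_eq_getElem _ _ hi]
      exact hiT
    · exact ⟨0, fun h => absurd h hT⟩
  choose f hf using hidx
  set Ch : Finset V := univ.filter fun v => (lab v).1 = 0 ∧ ∃ T ∈ C, f T = (lab v).2.1 with hCh
  have hCh0 : ∀ v ∈ Ch, (lab v).1 = 0 := by
    intro v hv
    rw [hCh, mem_filter] at hv
    exact hv.2.1
  set x : Sym2 V → ℕ := fun e => if (∃ u ∈ Ch, u ∈ e) ∧ (∃ w ∈ WW lab, w ∈ e) then 1 else 0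
    with hx
  -- exactly one chosen triple at every element
  have hone : ∀ w j, lab w = (1, j, 0, 0) → j < 3 * I.2 →
      ∃ u ∈ Ch, G.Adj w u ∧ ∀ u' ∈ Ch, G.Adj w u' → u' = u := by
    intro w j hw hj
    obtain ⟨T, hT, hjT⟩ := List.mem_flatMap.1 (hperm.mem_iff.2 (List.mem_range.2 hj))
    obtain ⟨h1, h2⟩ := hf T hT
    obtain ⟨u, hu⟩ := h.ex (0, f T, 0, 0) (by simp [okL, h1])
    refine ⟨u, ?_, ?_, ?_⟩
    · rw [hCh, mem_filter, hu]
      exact ⟨mem_univ _, rfl, T, hT, rfl⟩
    · rw [h.adj, hw, hu]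
      right
      simp [ed, h2, hjT]
    · intro u' hu' hwu'
      rw [hCh, mem_filter] at hu'
      obtain ⟨-, hu0, T', hT', hfT'⟩ := hu'
      obtain ⟨i, hi, hiu'⟩ := h.lab0 hu0
      rw [hiu'] at hfT'
      simp only at hfT'
      have h3 := (h.adj w u').1 hwu'
      rw [hw, hiu'] at h3
      have h4 : j ∈ el (tr I i) := by simpa [ed] using h3
      have h5 := (hf T' hT').2
      rw [hfT'] at h5
      rw [h5] at h4
      have hnd : (C.flatMap el).Nodup := hperm.nodup_iff.2 List.nodup_range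
      rw [List.nodup_flatMap] at hnd
      have hTT : T' = T := by
        by_contra hne
        have hpw := hnd.2
        obtain ⟨a, ha, haT⟩ := List.mem_iff_getElem.1 hT
        obtain ⟨b, hb, hbT⟩ := List.mem_iff_getElem.1 hT'
        have hab : a ≠ b := by
          rintro rfl
          exact hne (hbT.symm.trans haT)
        rcases Nat.lt_or_gt_of_ne hab with hlt | hlt
        · have h6 := List.pairwise_iff_getElem.1 hpw a b ha hb hlt
          rw [Function.onFun, haT, hbT] at h6
          exact h6 hjT h4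
        · have h6 := List.pairwise_iff_getElem.1 hpw b a hb ha hlt
          rw [Function.onFun, haT, hbT] at h6
          exact h6 h4 hjT
      apply h.inj
      rw [hiu', hu, ← hfT', hTT]
  have hx01 : ∀ u v, x s(u, v) = if (u ∈ Ch ∧ v ∈ WW lab) ∨ (v ∈ Ch ∧ u ∈ WW lab) then 1
      else 0 := by
    intro u v
    simp only [hx]
    refine if_congr ?_ rfl rfl
    constructor
    · rintro ⟨⟨a, ha, hae⟩, ⟨b, hb, hbe⟩⟩
      rcases Sym2.mem_iff.1 hae with rfl | rfl <;> rcases Sym2.mem_iff.1 hbe with rfl | rfl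
      · have h1 := hCh0 _ ha
        have h2 := mem_WW.1 hb
        omega
      · exact Or.inl ⟨ha, hb⟩
      · exact Or.inr ⟨ha, hb⟩
      · have h1 := hCh0 _ ha
        have h2 := mem_WW.1 hb
        omega
    · rintro (⟨h1, h2⟩ | ⟨h1, h2⟩)
      · exact ⟨⟨u, h1, by simp⟩, ⟨v, h2, by simp⟩⟩
      · exact ⟨⟨v, h1, by simp⟩, ⟨u, h2, by simp⟩⟩
  have hcol0 : ∀ v, v ∉ Ch → v ∉ WW lab → col G x v = 0 := by
    intro v h1 h2
    rw [col_eq_nb]
    refine Finset.sum_eq_zero fun z hz => ?_
    rw [hx01, if_neg]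
    rintro (⟨h3, -⟩ | ⟨-, h3⟩)
    · exact h1 h3
    · exact h2 h3
  have hcolW : ∀ w ∈ WW lab, col G x w = 1 := by
    intro w hw
    obtain ⟨j, hj, hjw⟩ := h.lab1 (mem_WW.1 hw)
    obtain ⟨u, hu, hwu, huniq⟩ := hone w j hjw hj
    rw [col_eq_nb, Finset.sum_eq_single u]
    · rw [hx01, if_pos (Or.inr ⟨hu, hw⟩)]
    · intro z hz hzu
      simp only [mem_filter, mem_univ, true_and] at hz
      rw [hx01, if_neg]
      rintro (⟨h3, -⟩ | ⟨h3, -⟩)
      · have h4 := hCh0 _ h3
        have h5 := mem_WW.1 hw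
        omega
      · exact hzu (huniq z h3 hz)
    · intro h3
      exact absurd (by simpa using hwu) h3
  have hcolC : ∀ u ∈ Ch, col G x u = 3 := by
    intro u hu
    obtain ⟨i, hi, hiu⟩ := h.lab0 (hCh0 u hu)
    have h1 : col G x u = (univ.filter fun z => G.Adj u z ∧ (lab z).1 = 1).card := by
      rw [col_eq_nb, Finset.card_eq_sum_ones, Finset.sum_filter, Finset.sum_filter]
      refine Finset.sum_congr rfl fun z _ => ?_
      by_cases hz : G.Adj u z
      · by_cases hz1 : (lab z).1 = 1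
        · rw [if_pos hz, if_pos ⟨hz, hz1⟩, hx01, if_pos (Or.inl ⟨hu, mem_WW.2 hz1⟩)]
        · rw [if_pos hz, if_neg (by tauto), hx01, if_neg]
          rintro (⟨-, h3⟩ | ⟨-, h3⟩)
          · exact hz1 (mem_WW.1 h3)
          · have h4 := hCh0 _ hu
            have h5 := mem_WW.1 h3
            omega
      · rw [if_neg hz, if_neg (by tauto)]
    rw [h1, h.card_eq _ ((el (tr I i)).map fun j => (1, j, 0, 0))]
    · simp [el]
    · refine List.Nodup.map (fun a b hab => ?_) (nodup_el hI (tr_mem hi))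
      simpa using hab
    · intro y
      simp only [List.mem_map]
      constructor
      · rintro ⟨j, hj, rfl⟩
        have hj' := el_lt hI (tr_mem hi) hj
        obtain ⟨z, hz⟩ := h.ex (1, j, 0, 0) (by simp [okL]; omega)
        refine ⟨z, hz, ?_, by rw [hz]⟩
        rw [h.adj, hiu, hz]
        left
        simp [ed, hj]
      · rintro ⟨z, rfl, hz, hz1⟩
        obtain ⟨j, hj, hjz⟩ := h.lab1 hz1
        refine ⟨j, ?_, hjz.symm⟩
        have h3 := (h.adj u z).1 hz
        rw [hiu, hjz] at h3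
        simpa [ed] using h3
  have hWind : ∀ u ∈ WW lab, ∀ v ∈ WW lab, ¬ G.Adj u v := by
    intro u hu v hv
    exact h.not_adj ((mem_WW.1 hu).trans (mem_WW.1 hv).symm)
  have hlx : lsum G x = 3 * I.2 := by
    have h1 := indep_sum hWind x
    rw [Finset.sum_congr rfl hcolW, ← Finset.card_eq_sum_ones, h.card_WW] at h1
    rw [h1]
    unfold lsum
    rw [Finset.sum_filter]
    refine Finset.sum_congr rfl fun e _ => ?_
    split_ifs with h2
    · rfl
    · simp only [hx]
      rw [if_neg]
      rintro ⟨-, h3⟩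
      exact h2 h3
  refine ⟨fun e => 1 + x e, ⟨fun e _ => Nat.le_add_right _ _, ?_⟩, ?_⟩
  · -- properness
    have key : ∀ u v, ed I (lab u) (lab v) = true →
        col G (fun e => 1 + x e) u ≠ col G (fun e => 1 + x e) v := by
      intro u v huv
      have hn3 : 0 < I.2 := Pool.Agent.R550.TD.q_pos hI
      rw [col_one_add, col_one_add]
      have hvC : (lab v).1 ≠ 0 → v ∉ Ch := fun h1 h2 => h1 (hCh0 v h2)
      have huC : (lab u).1 ≠ 0 → u ∉ Ch := fun h1 h2 => h1 (hCh0 u h2)
      have hleaf : 4 ≤ (lab v).1 → 2 ≤ G.degree u →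
          G.degree u + col G x u ≠ G.degree v + col G x v := by
        intro h1 h2
        rw [h.deg_leaf h1, hcol0 v (hvC (by omega)) (fun h3 => by
          rw [mem_WW] at h3; omega)]
        omega
      have hcases : ((lab u).1 = 0 ∧ (lab v).1 = 1) ∨
          ((lab u).1 = 1 ∧ (lab v).1 = 2 ∧ (lab v).2.1 = (lab u).2.1) ∨
          ((lab u).1 = 0 ∧ (lab v).1 = 3) ∨
          (((lab u).1 = 0 ∨ (lab u).1 = 2 ∨ (lab u).1 = 3) ∧ 4 ≤ (lab v).1) := by
        simp only [ed, Bool.or_eq_true, Bool.and_eq_true, decide_eq_true_eq] at huv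
        omega
      rcases hcases with ⟨h1, h2⟩ | ⟨h1, h2, h3⟩ | ⟨h1, h2⟩ | ⟨h1, h2⟩
      · obtain ⟨i, hi, hiu⟩ := h.lab0 h1
        obtain ⟨j, hj, hjv⟩ := h.lab1 h2
        rw [h.deg_u hI hiu, h.deg_w hjv, hcolW v (mem_WW.2 h2)]
        have := occL_le (I := I) j
        omega
      · obtain ⟨j, hj, hju⟩ := h.lab1 h1
        obtain ⟨j', hj', l, hjv⟩ := h.lab2 h2
        rw [hju, hjv] at h3
        simp only at h3
        subst h3
        rw [h.deg_w hju, h.deg_g hjv, hcolW u (mem_WW.2 h1),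
          hcol0 v (hvC (by omega)) (fun h3 => by rw [mem_WW] at h3; omega)]
        omega
      · obtain ⟨i, hi, hiu⟩ := h.lab0 h1
        obtain ⟨i', hi', s, hs, hjv⟩ := h.lab3 h2
        rw [h.deg_u hI hiu, h.deg_b hjv,
          hcol0 v (hvC (by omega)) (fun h3 => by rw [mem_WW] at h3; omega)]
        by_cases hu : u ∈ Ch
        · rw [hcolC u hu]
          omega
        · rw [hcol0 u hu (fun h3 => by rw [mem_WW] at h3; omega)]
          omega
      · refine hleaf h2 ?_
        rcases h1 with h1 | h1 | h1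
        · obtain ⟨i, hi, hiu⟩ := h.lab0 h1
          rw [h.deg_u hI hiu]
          omega
        · obtain ⟨j', hj', l, hjv⟩ := h.lab2 h1
          rw [h.deg_g hjv]
          omega
        · obtain ⟨i', hi', s, hs, hjv⟩ := h.lab3 h1
          rw [h.deg_b hjv]
          omega
    intro u v huv
    rcases (h.adj u v).1 huv with h1 | h1
    · exact key u v h1
    · exact (key v u h1).symm
  · rw [lsum_one_add, hlx]

open Classical in
theorem Gad.nice (hI : Pr I.1 I.2) (h : Gad I G lab) : Nice G := by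
  rw [nice_iff]
  have key : ∀ u v, ed I (lab u) (lab v) = true → ∃ w, w ≠ v ∧ G.Adj u w := by
    intro u v huv
    have hn3 : 0 < I.2 := Pool.Agent.R550.TD.q_pos hI
    have h2 : 2 ≤ G.degree u := by
      have hcases : (lab u).1 = 0 ∨ (lab u).1 = 1 ∨ (lab u).1 = 2 ∨ (lab u).1 = 3 := by
        simp only [ed, Bool.or_eq_true, Bool.and_eq_true, decide_eq_true_eq] at huv
        omega
      rcases hcases with h1 | h1 | h1 | h1
      · obtain ⟨i, hi, hiu⟩ := h.lab0 h1
        rw [h.deg_u hI hiu]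
        omega
      · obtain ⟨j, hj, hju⟩ := h.lab1 h1
        rw [h.deg_w hju]
        omega
      · obtain ⟨j', hj', l, hjv⟩ := h.lab2 h1
        rw [h.deg_g hjv]
        omega
      · obtain ⟨i', hi', s, hs, hjv⟩ := h.lab3 h1
        rw [h.deg_b hjv]
        omega
    rw [← SimpleGraph.card_neighborFinset_eq_degree] at h2
    obtain ⟨w, hw, hwv⟩ := Finset.exists_mem_ne (s := G.neighborFinset u) (by omega) v
    exact ⟨w, hwv, by simpa using hw⟩
  intro u v huv
  rcases (h.adj u v).1 huv with h1 | h1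
  · obtain ⟨w, hw, hw2⟩ := key u v h1
    exact ⟨w, hw2.ne', hw, Or.inl hw2⟩
  · obtain ⟨w, hw, hw2⟩ := key v u h1
    exact ⟨w, hw, hw2.ne', Or.inr hw2⟩

theorem Gad.bip (h : Gad I G lab) : G.IsBipartite := by
  refine ⟨SimpleGraph.Coloring.mk (fun v => if (lab v).1 = 0 ∨ (lab v).1 = 2 ∨ (lab v).1 = 7
    then (0 : Fin 2) else 1) ?_⟩
  intro u v huv
  have key : ∀ x y : Lab, ed I x y = true → (if x.1 = 0 ∨ x.1 = 2 ∨ x.1 = 7
      then (0 : Fin 2) else 1) ≠ if y.1 = 0 ∨ y.1 = 2 ∨ y.1 = 7 then (0 : Fin 2) else 1 := by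
    intro x y hxy
    simp only [ed, Bool.or_eq_true, Bool.and_eq_true, decide_eq_true_eq] at hxy
    by_cases h1 : x.1 = 0 ∨ x.1 = 2 ∨ x.1 = 7
    · rw [if_pos h1, if_neg (by omega)]
      decide
    · rw [if_neg h1, if_pos (by omega)]
      decide
  rcases (h.adj u v).1 huv with h1 | h1
  · exact key _ _ h1
  · exact (key _ _ h1).symm

end Pool.Agent.R538.MS
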