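import Pool.Agent.R538.MS.Loop
import Pool.Agent.R538.MS.Hard
import Pool.Agent.R538.MS.Build
import Pool.Agent.H673R2.HardOn
import Pool.Agent.NPC.Classes

/-!
# Complexity of the minimum label sum
-/

namespace Pool.Agent.R538.MS

open Pool.Agent.NPC Pool.Agent.R550.GB Pool.Agent.NPC.H632 Pool.Agent.H557R2.Tri

/-- The decision problem MIN-SUM: the graph is nice and `mE(G) ≤ q`. -/
def MinSum (I : List (List ℕ) × ℕ) : Prop := Nice (graph I.1) ∧ mE (graph I.1) ≤ (I.2 : ℕ∞)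

/-! ### The list of edges -/

theorem poly_elist : NPC.Poly elist := by
  have h1 : NPC.Poly (fun A : List (List ℕ) => List.range A.length) :=
    (UPoly.length NPC.Poly.id).range
  have h2 : NPC.Poly (fun A : List (List ℕ) => ((List.range A.length) ×ˢ (List.range A.length) :
      List (ℕ × ℕ))) := by
    fun_prop
  unfold elist
  refine NPC.Poly.filter (p := fun (A : List (List ℕ)) (p : ℕ × ℕ) => decide (p.1 < p.2) &&
    (decide (p.2 ∈ A.getD p.1 []) || decide (p.1 ∈ A.getD p.2 []))) h2 ?_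
  fun_prop

/-! ### The algorithm runs in polynomial time -/

theorem u_bnd : UPoly bnd := by
  have h : UPoly (fun A : List (List ℕ) => (elist A).length) := UPoly.length poly_elist
  exact h.mul (h.add (UPoly.const 1))

theorem poly_box {α : Type} [TEnc α] {n S : α → ℕ} (hn : UPoly n) (hS : UPoly S) :
    NPC.Poly (fun a => box (n a) (S a)) := by
  have h1 : NPC.Poly (fun a => List.range (n a)) := hn.range
  have h2 : NPC.Poly (fun a => List.range (S a + 1)) := (hS.add (UPoly.const 1)).range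
  unfold box
  fun_prop

theorem sz_sublist {α : Type} [TEnc α] {l l' : List α} (h : l.Sublist l') : sz l ≤ sz l' := by
  induction h with
  | slnil => exact le_rfl
  | cons a _ ih =>
    rw [sz_list_cons]
    omega
  | cons_cons a _ ih =>
    rw [sz_list_cons, sz_list_cons]
    omega

theorem poly_comb : NPC.Poly (fun z : ((ℕ × ℕ) × Ent) × (Ent × Ent) =>
    comb z.1.1.1 z.1.1.2 z.1.2 z.2.1 z.2.2) := by
  unfold comb
  fun_prop

theorem poly_newc : NPC.Poly (fun z : (List Ent × (ℕ × ℕ)) × Ent =>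
    newc z.1.1 z.1.2.1 z.1.2.2 z.2) := by
  have h1 : NPC.Poly (fun z : (List Ent × (ℕ × ℕ)) × Ent =>
      z.1.1.any fun r => z.1.1.any fun q => comb z.1.2.1 z.1.2.2 z.2 r q) := by
    refine NPC.Poly.any (p := fun (z : (List Ent × (ℕ × ℕ)) × Ent) r =>
      z.1.1.any fun q => comb z.1.2.1 z.1.2.2 z.2 r q) (by fun_prop) ?_
    refine NPC.Poly.any (p := fun (w : ((List Ent × (ℕ × ℕ)) × Ent) × Ent) q =>
      comb w.1.1.2.1 w.1.1.2.2 w.1.2 w.2 q) (by fun_prop) ?_
    exact poly_comb.comp (f := fun w : (((List Ent × (ℕ × ℕ)) × Ent) × Ent) × Ent =>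
      ((w.1.1.1.2, w.1.1.2), (w.1.2, w.2))) (by fun_prop)
  have h2 : NPC.Poly (fun z : (List Ent × (ℕ × ℕ)) × Ent => decide (z.2 ∈ z.1.1)) := by
    fun_prop
  unfold newc
  fun_prop

theorem poly_lf {α : Type} [TEnc α] {E : α → List (ℕ × ℕ)} {v : α → ℕ} (hE : NPC.Poly E)
    (hv : NPC.Poly v) : NPC.Poly (fun a => lf (E a) (v a)) := by
  unfold lf inc
  fun_prop

theorem poly_elimS : NPC.Poly (fun z : (List (List ℕ) × St) × ((ℕ × ℕ) × (ℕ × ℕ)) =>
    elimS z.1.1.length (bnd z.1.1) z.2.1.1 z.2.1.2 z.2.2 z.1.2) := by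
  have hb : NPC.Poly (fun z : (List (List ℕ) × St) × ((ℕ × ℕ) × (ℕ × ℕ)) =>
      box z.1.1.length (bnd z.1.1)) := by
    refine poly_box ?_ ?_
    · exact UPoly.length (by fun_prop)
    · exact u_bnd.comp (by fun_prop)
  unfold elimS
  refine NPC.Poly.pair ?_ (NPC.Poly.pair ?_ ?_)
  · fun_prop
  · fun_prop
  · refine NPC.Poly.filter (p := fun (z : (List (List ℕ) × St) × ((ℕ × ℕ) × (ℕ × ℕ))) y =>
      newc z.1.2.2.2 z.2.1.1 z.2.1.2 y) hb ?_
    exact poly_newc.comp (f := fun w : ((List (List ℕ) × St) × ((ℕ × ℕ) × (ℕ × ℕ))) × Ent =>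
      ((w.1.1.2.2.2, w.1.2.1), w.2)) (by fun_prop)

attribute [local irreducible] elimS lf


theorem poly_step : NPC.Poly (fun z : List (List ℕ) × St => step z.1.length (bnd z.1) z.2) := by
  have h0 : NPC.Poly (fun z : List (List ℕ) × St =>
      (z.2.2.1.filter fun y => lf z.2.2.1 y.1 || lf z.2.2.1 y.2).head?) := by
    refine NPC.Poly.head? (NPC.Poly.filter (p := fun (z : List (List ℕ) × St) (y : ℕ × ℕ) =>
      lf z.2.2.1 y.1 || lf z.2.2.1 y.2) (by fun_prop) ?_)
    have h1 := poly_lf (E := fun w : (List (List ℕ) × St) × (ℕ × ℕ) => w.1.2.2.1)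
      (v := fun w => w.2.1) (by fun_prop) (by fun_prop)
    have h2 := poly_lf (E := fun w : (List (List ℕ) × St) × (ℕ × ℕ) => w.1.2.2.1)
      (v := fun w => w.2.2) (by fun_prop) (by fun_prop)
    exact NPC.Poly.or h1 h2
  have h3 : NPC.Poly (fun w : (List (List ℕ) × St) × (ℕ × ℕ) =>
      if lf w.1.2.2.1 w.2.1 = true then
        elimS w.1.1.length (bnd w.1.1) w.2.1 w.2.2 w.2 w.1.2 else
        elimS w.1.1.length (bnd w.1.1) w.2.2 w.2.1 w.2 w.1.2) := by
    have h1 := poly_lf (E := fun w : (List (List ℕ) × St) × (ℕ × ℕ) => w.1.2.2.1)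
      (v := fun w => w.2.1) (by fun_prop) (by fun_prop)
    refine NPC.Poly.ite (NPC.Poly.decide_bool h1) ?_ ?_
    · exact poly_elimS.comp (f := fun w : (List (List ℕ) × St) × (ℕ × ℕ) =>
        (w.1, ((w.2.1, w.2.2), w.2))) (by fun_prop)
    · exact poly_elimS.comp (f := fun w : (List (List ℕ) × St) × (ℕ × ℕ) =>
        (w.1, ((w.2.2, w.2.1), w.2))) (by fun_prop)
  exact NPC.Poly.optElim (h := fun (z : List (List ℕ) × St) (y : ℕ × ℕ) =>
    if lf z.2.2.1 y.1 = true then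
        elimS z.1.length (bnd z.1) y.1 y.2 y z.2 else
        elimS z.1.length (bnd z.1) y.2 y.1 y z.2) h0 (NPC.Poly.snd NPC.Poly.id) h3

end Pool.Agent.R538.MS
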