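import Pool.Agent.R538.MS.Defs

/-!
# Proper labellings: basic facts
-/

namespace Pool.Agent.R538.MS

open Finset

variable {V : Type} [Fintype V] {G : SimpleGraph V}

open Classical in
theorem col_eq_nb (l : Sym2 V → ℕ) (v : V) :
    col G l v = ∑ u ∈ univ.filter (fun u => G.Adj v u), l s(v, u) := by
  unfold col
  symm
  refine Finset.sum_bij (fun u _ => s(v, u)) ?_ ?_ ?_ ?_
  · intro u hu
    simp only [mem_filter, mem_univ, true_and] at hu
    simp [hu]
  · intro a _ b _ h
    exact Sym2.congr_right.1 h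
  · intro e he
    simp only [mem_filter, SimpleGraph.mem_edgeFinset] at he
    obtain ⟨h1, h2⟩ := he
    refine ⟨Sym2.Mem.other h2, ?_, Sym2.other_spec h2⟩
    simp only [mem_filter, mem_univ, true_and]
    rw [← SimpleGraph.mem_edgeSet, Sym2.other_spec h2]
    exact h1
  · intro u _
    rfl

theorem col_congr {l l' : Sym2 V → ℕ} (h : ∀ e ∈ G.edgeSet, l e = l' e) (v : V) :
    col G l v = col G l' v := by
  unfold col
  refine Finset.sum_congr rfl fun e he => h e ?_
  simp only [mem_filter, SimpleGraph.mem_edgeFinset] at he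
  exact he.1

theorem lsum_congr {l l' : Sym2 V → ℕ} (h : ∀ e ∈ G.edgeSet, l e = l' e) :
    lsum G l = lsum G l' := by
  unfold lsum
  refine Finset.sum_congr rfl fun e he => h e ?_
  simpa using he

open Classical in
theorem col_one_add (x : Sym2 V → ℕ) (v : V) :
    col G (fun e => 1 + x e) v = G.degree v + col G x v := by
  rw [col_eq_nb, col_eq_nb, sum_add_distrib, sum_const, smul_eq_mul, mul_one]
  congr 1
  rw [← SimpleGraph.card_neighborFinset_eq_degree]
  congr 1
  ext u
  simp

open Classical in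
theorem lsum_one_add (x : Sym2 V → ℕ) :
    lsum G (fun e => 1 + x e) = G.edgeFinset.card + lsum G x := by
  unfold lsum
  rw [sum_add_distrib, sum_const, smul_eq_mul, mul_one]

open Classical in
/-- For an independent set the sums of the weights at its vertices add up to the weight of the
edges touching it. -/
theorem indep_sum {S : Finset V} (hS : ∀ u ∈ S, ∀ v ∈ S, ¬ G.Adj u v) (x : Sym2 V → ℕ) :
    ∑ v ∈ S, col G x v = ∑ e ∈ G.edgeFinset with (∃ v ∈ S, v ∈ e), x e := by
  unfold col
  rw [← Finset.sum_biUnion]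
  · refine Finset.sum_congr ?_ fun _ _ => rfl
    ext e
    simp only [mem_biUnion, mem_filter, SimpleGraph.mem_edgeFinset]
    constructor
    · rintro ⟨v, hv, h1, h2⟩
      exact ⟨h1, v, hv, h2⟩
    · rintro ⟨h1, v, hv, h2⟩
      exact ⟨v, hv, h1, h2⟩
  · intro u hu v hv huv
    rw [Function.onFun, Finset.disjoint_left]
    intro e he he'
    simp only [mem_filter, SimpleGraph.mem_edgeFinset] at he he'
    have h3 : e = s(u, v) := (Sym2.mem_and_mem_iff huv).1 ⟨he.2, he'.2⟩
    rw [h3] at he
    exact hS u hu v hv he.1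

open Classical in
theorem indep_le {S : Finset V} (hS : ∀ u ∈ S, ∀ v ∈ S, ¬ G.Adj u v) (x : Sym2 V → ℕ) :
    ∑ v ∈ S, col G x v ≤ lsum G x := by
  rw [indep_sum hS]
  unfold lsum
  exact Finset.sum_le_sum_of_subset (Finset.filter_subset _ _)

open Classical in
theorem indep_tight {S : Finset V} (hS : ∀ u ∈ S, ∀ v ∈ S, ¬ G.Adj u v) {x : Sym2 V → ℕ}
    (hx : lsum G x ≤ S.card) (h1 : ∀ v ∈ S, 1 ≤ col G x v) :
    (∀ v ∈ S, col G x v = 1) ∧ ∀ e ∈ G.edgeSet, (∀ v ∈ S, v ∉ e) → x e = 0 := by
  have h2 : S.card ≤ ∑ v ∈ S, col G x v := by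
    rw [Finset.card_eq_sum_ones]
    exact Finset.sum_le_sum h1
  have h3 := indep_le hS x
  have h4 : ∑ v ∈ S, col G x v = ∑ v ∈ S, 1 := by
    rw [← Finset.card_eq_sum_ones]
    omega
  constructor
  · intro v hv
    exact ((Finset.sum_eq_sum_iff_of_le h1).1 h4.symm v hv).symm
  · intro e he hev
    have h5 := indep_sum hS x
    have h6 : ∑ e ∈ G.edgeFinset with (∃ v ∈ S, v ∈ e), x e +
        ∑ e ∈ G.edgeFinset with ¬ (∃ v ∈ S, v ∈ e), x e = lsum G x :=
      Finset.sum_filter_add_sum_filter_not _ _ _
    have h7 : ∑ e ∈ G.edgeFinset with ¬ (∃ v ∈ S, v ∈ e), x e = 0 := by omega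
    rw [Finset.sum_eq_zero_iff] at h7
    refine h7 e ?_
    simp only [mem_filter, SimpleGraph.mem_edgeFinset, not_exists, not_and]
    exact ⟨he, hev⟩

theorem mE_le_iff (N : ℕ) : mE G ≤ (N : ℕ∞) ↔ ∃ l, Proper G l ∧ lsum G l ≤ N := by
  constructor
  · intro h
    by_contra hcon
    push Not at hcon
    have h1 : ((N + 1 : ℕ) : ℕ∞) ≤ mE G := by
      unfold mE
      refine le_iInf₂ fun l hl => ?_
      exact_mod_cast hcon l hl
    have h2 := h1.trans h
    have h3 : N + 1 ≤ N := by exact_mod_cast h2
    omega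
  · rintro ⟨l, hl, hN⟩
    unfold mE
    exact iInf₂_le_of_le l hl (by exact_mod_cast hN)

/-! ### Nice graphs -/

theorem nice_iff : Nice G ↔
    ∀ u v, G.Adj u v → ∃ w, w ≠ u ∧ w ≠ v ∧ (G.Adj u w ∨ G.Adj v w) := by
  constructor
  · intro hG u v huv
    by_contra hcon
    push Not at hcon
    have hsupp : ∀ w, w ∈ (G.connectedComponentMk u).supp → w = u ∨ w = v := by
      intro w hw
      have hr : G.Reachable u w := by
        rw [SimpleGraph.ConnectedComponent.mem_supp_iff, SimpleGraph.ConnectedComponent.eq] at hw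
        exact hw.symm
      obtain ⟨p⟩ := hr
      have key : ∀ (a b : V) (p : G.Walk a b), (a = u ∨ a = v) → (b = u ∨ b = v) := by
        intro a b p
        induction p with
        | nil => exact id
        | @cons a c b hac p ih =>
          intro ha
          apply ih
          by_contra hc
          push Not at hc
          have h1 := hcon c hc.1 hc.2
          rcases ha with rfl | rfl
          · exact h1.1 hac
          · exact h1.2 hac
      exact key u w p (Or.inl rfl)
    have hu : u ∈ (G.connectedComponentMk u).supp := rfl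
    have hv : v ∈ (G.connectedComponentMk u).supp := by
      rw [SimpleGraph.ConnectedComponent.mem_supp_iff, SimpleGraph.ConnectedComponent.eq]
      exact huv.symm.reachable
    let f : Fin 2 → (G.connectedComponentMk u).supp := ![⟨u, hu⟩, ⟨v, hv⟩]
    have hf : Function.Bijective f := by
      constructor
      · intro i j hij
        fin_cases i <;> fin_cases j
        · rfl
        · exact absurd (congrArg Subtype.val hij) huv.ne
        · exact absurd (congrArg Subtype.val hij) huv.ne'
        · rfl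
      · rintro ⟨w, hw⟩
        rcases hsupp w hw with rfl | rfl
        · exact ⟨0, rfl⟩
        · exact ⟨1, rfl⟩
    refine (hG (G.connectedComponentMk u)).false ?_
    refine SimpleGraph.Iso.symm ⟨Equiv.ofBijective f hf, ?_⟩
    intro i j
    fin_cases i <;> fin_cases j <;>
      simp [f, Equiv.ofBijective, huv, huv.symm, SimpleGraph.comap_adj]
  · intro h c
    refine ⟨fun φ => ?_⟩
    set u := φ.symm 0 with hu
    set v := φ.symm 1 with hv
    have huv : (G.induce c.supp).Adj u v := by
      rw [hu, hv, φ.symm.map_adj_iff]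
      simp
    have huv' : G.Adj u v := huv
    obtain ⟨w, hwu, hwv, hw⟩ := h u v huv'
    have hwc : w ∈ c.supp := by
      rcases hw with hw | hw
      · exact c.mem_supp_of_adj_mem_supp u.2 hw
      · exact c.mem_supp_of_adj_mem_supp v.2 hw
    have h1 : φ ⟨w, hwc⟩ = 0 ∨ φ ⟨w, hwc⟩ = 1 := by
      generalize φ ⟨w, hwc⟩ = z
      fin_cases z <;> simp
    rcases h1 with h1 | h1
    · apply hwu
      have h2 : (⟨w, hwc⟩ : c.supp) = u := by
        rw [hu, ← h1]
        exact (φ.symm_apply_apply _).symm
      rw [← h2]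
    · apply hwv
      have h2 : (⟨w, hwc⟩ : c.supp) = v := by
        rw [hv, ← h1]
        exact (φ.symm_apply_apply _).symm
      rw [← h2]

/-- A graph with a proper labelling is nice. -/
theorem nice_of_proper {l : Sym2 V → ℕ} (hl : Proper G l) : Nice G := by
  classical
  rw [nice_iff]
  intro u v huv
  by_contra hcon
  push Not at hcon
  apply hl.2 u v huv
  have h1 : ∀ w, G.Adj u w ↔ w = v := by
    intro w
    constructor
    · intro h
      by_contra hw
      exact (hcon w h.ne' hw).1 h
    · rintro rfl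
      exact huv
  have h2 : ∀ w, G.Adj v w ↔ w = u := by
    intro w
    constructor
    · intro h
      by_contra hw
      exact (hcon w hw h.ne').2 h
    · rintro rfl
      exact huv.symm
  have e1 : univ.filter (fun w => G.Adj u w) = {v} := by ext w; simp [h1]
  have e2 : univ.filter (fun w => G.Adj v w) = {u} := by ext w; simp [h2]
  rw [col_eq_nb, col_eq_nb, e1, e2, Finset.sum_singleton, Finset.sum_singleton, Sym2.eq_swap]

open Classical in
/-- the difference of the colours of the two vertices of an edge, as a linear form -/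
noncomputable def lin (G : SimpleGraph V) (u v : V) : MvPolynomial (Sym2 V) ℤ :=
  ∑ f ∈ G.edgeFinset with u ∈ f, MvPolynomial.X f -
    ∑ f ∈ G.edgeFinset with v ∈ f, MvPolynomial.X f

open Classical in
theorem eval_lin (u v : V) (l : Sym2 V → ℕ) :
    MvPolynomial.eval (fun e => (l e : ℤ)) (lin G u v) = (col G l u : ℤ) - col G l v := by
  unfold lin col
  simp

theorem lin_deg (u v : V) : (lin G u v).totalDegree ≤ 1 := by
  classical
  unfold lin
  refine (MvPolynomial.totalDegree_sub _ _).trans (max_le ?_ ?_)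
  · refine MvPolynomial.totalDegree_finsetSum_le fun f _ => ?_
    exact (MvPolynomial.totalDegree_X f).le
  · refine MvPolynomial.totalDegree_finsetSum_le fun f _ => ?_
    exact (MvPolynomial.totalDegree_X f).le

theorem lin_ne (hG : Nice G) {u v : V} (huv : G.Adj u v) : lin G u v ≠ 0 := by
  classical
  intro h0
  obtain ⟨w, hwu, hwv, hw⟩ := nice_iff.1 hG u v huv
  rcases hw with hw | hw
  · have h1 := eval_lin (G := G) u v (fun e => if e = s(u, w) then 1 else 0)
    rw [h0, map_zero] at h1
    have h2 : col G (fun e => if e = s(u, w) then 1 else 0) u = 1 := by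
      unfold col
      rw [Finset.sum_ite_eq', if_pos]
      simp [hw]
    have h3 : col G (fun e => if e = s(u, w) then 1 else 0) v = 0 := by
      unfold col
      rw [Finset.sum_ite_eq', if_neg]
      simp only [mem_filter, Sym2.mem_iff, not_and, not_or]
      exact fun _ => ⟨huv.ne', hwv.symm⟩
    rw [h2, h3] at h1
    norm_num at h1
  · have h1 := eval_lin (G := G) u v (fun e => if e = s(v, w) then 1 else 0)
    rw [h0, map_zero] at h1
    have h2 : col G (fun e => if e = s(v, w) then 1 else 0) v = 1 := by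
      unfold col
      rw [Finset.sum_ite_eq', if_pos]
      simp [hw]
    have h3 : col G (fun e => if e = s(v, w) then 1 else 0) u = 0 := by
      unfold col
      rw [Finset.sum_ite_eq', if_neg]
      simp only [mem_filter, Sym2.mem_iff, not_and, not_or]
      exact fun _ => ⟨huv.ne, hwu.symm⟩
    rw [h2, h3] at h1
    norm_num at h1

open Classical in
/-- **A polynomial bound.** A nice graph with `m` edges has a proper labelling with labels at most
`m + 1`. -/
theorem exists_small (hG : Nice G) :
    ∃ l, Proper G l ∧ ∀ e, l e ≤ G.edgeFinset.card + 1 := by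
  set K := G.edgeFinset.card with hK
  let L : Sym2 V → MvPolynomial (Sym2 V) ℤ := fun e => lin G e.out.1 e.out.2
  have hout : ∀ e : Sym2 V, s(e.out.1, e.out.2) = e := fun e => by
    exact Quot.out_eq e
  have hP : ∏ e ∈ G.edgeFinset, L e ≠ 0 := by
    rw [Finset.prod_ne_zero_iff]
    intro e he
    refine lin_ne hG ?_
    rw [← SimpleGraph.mem_edgeSet, hout]
    simpa using he
  have h1 : ∃ x : Sym2 V → ℤ, (∀ i, x i ∈ (Finset.Icc 1 (K + 1)).image (fun n : ℕ => (n : ℤ))) ∧
      MvPolynomial.eval x (∏ e ∈ G.edgeFinset, L e) ≠ 0 := by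
    by_contra hcon
    push Not at hcon
    refine hP (MvPolynomial.eq_zero_of_eval_zero_at_prod_finset _
      (fun _ => (Finset.Icc 1 (K + 1)).image (fun n : ℕ => (n : ℤ))) ?_ hcon)
    intro i
    rw [Finset.card_image_of_injective _ Nat.cast_injective, Nat.card_Icc]
    have h2 := MvPolynomial.degreeOf_prod_le i G.edgeFinset L
    have h3 : ∑ e ∈ G.edgeFinset, MvPolynomial.degreeOf i (L e) ≤ ∑ e ∈ G.edgeFinset, 1 := by
      refine Finset.sum_le_sum fun e _ => ?_
      exact (MvPolynomial.degreeOf_le_totalDegree _ _).trans (lin_deg _ _)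
    rw [← Finset.card_eq_sum_ones] at h3
    omega
  obtain ⟨x, hx, hxP⟩ := h1
  have h4 : ∀ i, ∃ n : ℕ, 1 ≤ n ∧ n ≤ K + 1 ∧ (n : ℤ) = x i := by
    intro i
    obtain ⟨n, hn, hnx⟩ := Finset.mem_image.1 (hx i)
    rw [Finset.mem_Icc] at hn
    exact ⟨n, hn.1, hn.2, hnx⟩
  choose l hl1 hl2 hlx using h4
  refine ⟨l, ⟨fun e _ => hl1 e, ?_⟩, hl2⟩
  intro u v huv
  rw [map_prod, Finset.prod_ne_zero_iff] at hxP
  have h5 := hxP s(u, v) (by simpa using huv)
  have h6 : x = fun e => (l e : ℤ) := by
    funext e
    exact (hlx e).symm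
  have h7 : (L s(u, v)) = lin G (s(u, v)).out.1 (s(u, v)).out.2 := rfl
  rw [h6, h7, eval_lin] at h5
  have h8 := hout s(u, v)
  rw [Sym2.eq_iff] at h8
  rcases h8 with ⟨h8, h9⟩ | ⟨h8, h9⟩
  · rw [h8, h9] at h5
    intro h10
    apply h5
    rw [h10, sub_self]
  · rw [h8, h9] at h5
    intro h10
    apply h5
    rw [h10, sub_self]

open Classical in
theorem exists_small_sum (hG : Nice G) :
    ∃ l, Proper G l ∧ lsum G l ≤ G.edgeFinset.card * (G.edgeFinset.card + 1) := by
  obtain ⟨l, hl, hb⟩ := exists_small hG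
  refine ⟨l, hl, ?_⟩
  unfold lsum
  refine (Finset.sum_le_card_nsmul _ _ _ fun e _ => hb e).trans ?_
  rw [smul_eq_mul]

end Pool.Agent.R538.MS
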