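import Pool.Agent.R538.MS.CompA

/-!
# Complexity of the minimum label sum: NP-completeness, trees
-/

namespace Pool.Agent.R538.MS

open Pool.Agent.NPC Pool.Agent.R550.GB Pool.Agent.NPC.H632 Pool.Agent.H557R2.Tri

theorem poly_init : NPC.Poly (fun G : List (List ℕ) => init G (bnd G)) := by
  have hb : NPC.Poly (fun G : List (List ℕ) => box G.length (bnd G)) :=
    poly_box (UPoly.length NPC.Poly.id) u_bnd
  have h1 : NPC.Poly (fun A : List (List ℕ) => List.range A.length) :=
    (UPoly.length NPC.Poly.id).range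
  unfold init
  refine NPC.Poly.pair h1 (NPC.Poly.pair poly_elist ?_)
  refine NPC.Poly.filter (p := fun (_ : List (List ℕ)) (y : Ent) =>
    decide (y.2.2.1 = 0) && decide (y.2.2.2 = 0)) hb ?_
  fun_prop

/-- the states stay inside fixed lists -/
def Sub (G : List (List ℕ)) (st : St) : Prop :=
  st.1.Sublist (List.range G.length) ∧ st.2.1.Sublist (elist G) ∧
    st.2.2.Sublist (box G.length (bnd G))

theorem sub_iter (G : List (List ℕ)) (k : ℕ) :
    Sub G ((step G.length (bnd G))^[k] (init G (bnd G))) := by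
  induction k with
  | zero => exact ⟨List.Sublist.refl _, List.Sublist.refl _, List.filter_sublist⟩
  | succ k ih =>
    rw [Function.iterate_succ_apply']
    generalize (step G.length (bnd G))^[k] (init G (bnd G)) = st at ih
    have key : ∀ u p e, Sub G (elimS G.length (bnd G) u p e st) := fun u p e =>
      ⟨List.filter_sublist.trans ih.1, List.filter_sublist.trans ih.2.1, List.filter_sublist⟩
    unfold step
    cases (st.2.1.filter fun z => lf st.2.1 z.1 || lf st.2.1 z.2).head? with
    | none => exact ih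
    | some z =>
      simp only [Option.elim_some]
      split_ifs
      · exact key _ _ _
      · exact key _ _ _

theorem poly_outp {α : Type} [TEnc α] {S : α → ℕ} {R : α → List Ent} (hS : UPoly S)
    (hR : NPC.Poly R) : NPC.Poly (fun a => outp (S a) (R a)) := by
  have h2 : NPC.Poly (fun a => List.range (S a + 1)) := (hS.add (UPoly.const 1)).range
  unfold outp
  fun_prop

theorem poly_algo : NPC.Poly algo := by
  unfold algo
  refine poly_outp u_bnd ?_
  refine NPC.Poly.snd (NPC.Poly.snd ?_)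
  have hb : NPC.Poly (fun G : List (List ℕ) => box G.length (bnd G)) :=
    poly_box (UPoly.length NPC.Poly.id) u_bnd
  have h1 : NPC.Poly (fun A : List (List ℕ) => List.range A.length) :=
    (UPoly.length NPC.Poly.id).range
  obtain ⟨q1, hq1⟩ := h1.sz_le
  obtain ⟨q2, hq2⟩ := poly_elist.sz_le
  obtain ⟨q3, hq3⟩ := hb.sz_le
  refine NPC.Poly.iterLen (l := elist) (s := fun G => init G (bnd G))
    (F := fun G st => step G.length (bnd G) st) poly_elist poly_init poly_step
    (q1 + q2 + q3 + 2) ?_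
  intro G k _
  obtain ⟨h2, h3, h4⟩ := sub_iter G k
  generalize (step G.length (bnd G))^[k] (init G (bnd G)) = st at h2 h3 h4
  have e1 := (sz_sublist h2).trans (hq1 G)
  have e2 := (sz_sublist h3).trans (hq2 G)
  have e3 := (sz_sublist h4).trans (hq3 G)
  obtain ⟨a, b, c⟩ := st
  rw [sz_pair, sz_pair]
  simp only at e1 e2 e3
  simp only [Polynomial.eval_add, Polynomial.eval_ofNat]
  omega

/-! ### Membership in NP -/

/-- the verifier -/
def ver (z : (List (List ℕ) × ℕ) × List ((ℕ × ℕ) × ℕ)) : Bool :=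
  decide (z.2.map (fun w => w.1) = elist z.1.1) && (z.2.all (fun w => decide (1 ≤ w.2)) &&
    (decide ((z.2.map (fun w => w.2)).sum ≤ z.1.2) &&
      (elist z.1.1).all fun p => !decide (
        ((z.2.filter fun w => decide (w.1.1 = p.1) || decide (w.1.2 = p.1)).map
          fun w => w.2).sum =
        ((z.2.filter fun w => decide (w.1.1 = p.2) || decide (w.1.2 = p.2)).map
          fun w => w.2).sum)))

theorem poly_ver : NPC.Poly ver := by
  have h1 : NPC.Poly (fun z : (List (List ℕ) × ℕ) × List ((ℕ × ℕ) × ℕ) => elist z.1.1) :=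
    poly_elist.comp (by fun_prop)
  unfold ver
  fun_prop

theorem exists_fun : ∀ (W : List ((ℕ × ℕ) × ℕ)) (E : List (ℕ × ℕ)), E.Nodup →
    W.map (fun w => w.1) = E → ∃ f : ℕ × ℕ → ℕ, W = E.map fun p => (p, f p)
  | [], E, _, h => ⟨fun _ => 0, by
      simp only [List.map_nil] at h
      rw [← h]
      rfl⟩
  | w :: W, E, hE, h => by
    cases E with
    | nil => simp at h
    | cons e E =>
      rw [List.map_cons, List.cons.injEq] at h
      rw [List.nodup_cons] at hE
      obtain ⟨f, hf⟩ := exists_fun W E hE.2 h.2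
      refine ⟨Function.update f e w.2, ?_⟩
      rw [List.map_cons, Function.update_self]
      congr 1
      · rw [← h.1]
      · rw [hf]
        refine List.map_congr_left fun p hp => ?_
        rw [Function.update_of_ne]
        rintro rfl
        exact hE.1 hp

theorem ver_iff (A : List (List ℕ)) (q : ℕ) (f : ℕ × ℕ → ℕ) :
    ver ((A, q), (elist A).map fun p => (p, f p)) = true ↔
      PropL (elist A) f ∧ ((elist A).map f).sum ≤ q := by
  unfold ver PropL
  simp only [Bool.and_eq_true, decide_eq_true_eq, List.all_eq_true, Bool.not_eq_true',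
    decide_eq_false_iff_not, List.map_map, List.filter_map]
  have e1 : List.map ((fun w : (ℕ × ℕ) × ℕ => w.1) ∘ fun p => (p, f p)) (elist A) = elist A := by
    have : ((fun w : (ℕ × ℕ) × ℕ => w.1) ∘ fun p => (p, f p)) = fun p => p := rfl
    rw [this, List.map_id']
  have e2 : ((fun w : (ℕ × ℕ) × ℕ => w.2) ∘ fun p => (p, f p)) = f := rfl
  rw [e1, e2]
  have e3 : ∀ v, ((elist A).filter ((fun w : (ℕ × ℕ) × ℕ => decide (w.1.1 = v) ||
      decide (w.1.2 = v)) ∘ fun p => (p, f p))) = (elist A).filter (inc v) := fun v => rfl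
  simp only [e3]
  constructor
  · rintro ⟨-, h1, h2, h3⟩
    refine ⟨⟨fun p hp => ?_, fun p hp => h3 p hp⟩, h2⟩
    exact h1 (p, f p) (List.mem_map_of_mem hp)
  · rintro ⟨⟨h1, h3⟩, h2⟩
    refine ⟨trivial, ?_, h2, fun p hp => h3 p hp⟩
    intro w hw
    obtain ⟨p, hp, rfl⟩ := List.mem_map.1 hw
    exact h1 p hp

theorem minSum_iff (I : List (List ℕ) × ℕ) : MinSum I ↔
    ∃ f, PropL (elist I.1) f ∧ ((elist I.1).map f).sum ≤ I.2 := by
  unfold MinSum
  rw [mE_graph_le]
  constructor
  · exact fun h => h.2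
  · rintro ⟨f, hf, hs⟩
    exact ⟨nice_of_proper ((proper_liftf I.1 f).2 hf), f, hf, hs⟩

theorem minSum_np : InNPP MinSum := by
  have h1 : NPC.Poly (fun I : List (List ℕ) × ℕ => elist I.1) := poly_elist.comp (by fun_prop)
  obtain ⟨r, hr⟩ := h1.sz_le
  refine inNPP_of poly_ver (r * (r + Polynomial.C 2 * Polynomial.X + 2) + 1) ?_
  rintro ⟨A, q⟩
  rw [minSum_iff]
  constructor
  · rintro ⟨f, hf, hs⟩
    refine ⟨(elist A).map fun p => (p, f p), ?_, (ver_iff A q f).2 ⟨hf, hs⟩⟩
    have h2 := hr (A, q)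
    simp only at h2
    set B := sz (elist A) + 2 * sz q + 1 with hB
    have h3 := sz_le_length_mul ((elist A).map fun p => (p, f p)) B (by
      intro w hw
      obtain ⟨p, hp, rfl⟩ := List.mem_map.1 hw
      have h4 := sz_le_of_mem hp
      have h5 : f p ≤ q := by
        refine le_trans ?_ hs
        exact List.single_le_sum (fun _ _ => Nat.zero_le _) _ (List.mem_map_of_mem hp)
      have h6 := sz_nat_mono_le h5
      rw [sz_pair]
      omega)
    rw [List.length_map] at h3
    have h7 := length_lt_sz (elist A)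
    have h8 : sz q ≤ sz (A, q) := by
      rw [sz_pair]
      omega
    refine h3.trans ?_
    simp only [Polynomial.eval_add, Polynomial.eval_mul, Polynomial.eval_C, Polynomial.eval_X,
      Polynomial.eval_ofNat, Polynomial.eval_one]
    have h9 : (elist A).length * (B + 1) ≤
        Polynomial.eval (sz (A, q)) r * (Polynomial.eval (sz (A, q)) r + 2 * sz (A, q) + 2) := by
      refine Nat.mul_le_mul (by omega) ?_
      omega
    omega
  · rintro ⟨W, -, hW⟩
    have h2 : W.map (fun w => w.1) = elist A := by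
      unfold ver at hW
      simp only [Bool.and_eq_true, decide_eq_true_eq] at hW
      exact hW.1
    obtain ⟨f, rfl⟩ := exists_fun W _ (nodup_elist A) h2
    exact ⟨f, (ver_iff A q f).1 hW⟩

/-! ### NP-hardness -/

/-- the labels of the vertices -/
def vsL (I : List (ℕ × ℕ × ℕ) × ℕ) : List Lab :=
  ((List.range 8) ×ˢ ((List.range (I.1.length + 3 * I.2)) ×ˢ ((List.range (3 * I.2 + 2)) ×ˢ
    (List.range (I.1.length + 3 * I.2 + 8))))).filter (okL I)

theorem mem_vsL {I : List (ℕ × ℕ × ℕ) × ℕ} {x : Lab} : x ∈ vsL I ↔ okL I x = true := by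
  obtain ⟨t, a, b, c⟩ := x
  unfold vsL
  rw [List.mem_filter, mem_prodd, mem_prodd, mem_prodd, List.mem_range, List.mem_range,
    List.mem_range, List.mem_range]
  constructor
  · exact fun h => h.2
  · intro h
    refine ⟨?_, h⟩
    simp only [okL, Bool.or_eq_true, Bool.and_eq_true, decide_eq_true_eq] at h
    omega

theorem nodup_vsL (I : List (ℕ × ℕ × ℕ) × ℕ) : (vsL I).Nodup := by
  unfold vsL
  exact List.Nodup.filter _ (List.Nodup.product List.nodup_range (List.Nodup.product
    List.nodup_range (List.Nodup.product List.nodup_range List.nodup_range)))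

/-- the graph -/
def gA (I : List (ℕ × ℕ × ℕ) × ℕ) : List (List ℕ) := mkA (vsL I) (ed I)

theorem exists_gad (I : List (ℕ × ℕ × ℕ) × ℕ) :
    ∃ lab : Fin (gA I).length → Lab, Gad I (graph (gA I)) lab := by
  obtain ⟨lab, h1, h2, h3, h4⟩ := exists_labA (nodup_vsL I) (ed I)
  refine ⟨lab, h1, fun v => mem_vsL.1 (h2 v), fun x hx => h3 x (mem_vsL.2 hx), fun u v => ?_⟩
  have h5 := h4 u v
  constructor
  · exact fun h => (h5.1 h).2
  · intro h
    refine h5.2 ⟨?_, h⟩
    rintro rfl
    rcases h with h | h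
    · exact ed_ne h rfl
    · exact ed_ne h rfl

/-- the instance -/
def instM (I : List (ℕ × ℕ × ℕ) × ℕ) : List (List ℕ) × ℕ :=
  (gA I, (elist (gA I)).length + 3 * I.2)

theorem instM_iff {I : List (ℕ × ℕ × ℕ) × ℕ} (hI : Pr I.1 I.2) :
    X3C I ↔ mE (graph (instM I).1) ≤ ((instM I).2 : ℕ∞) := by
  classical
  obtain ⟨lab, h⟩ := exists_gad I
  rw [mE_le_iff]
  have hc := card_elist (gA I)
  constructor
  · intro hX
    obtain ⟨l, hl, hs⟩ := h.complete hI hX
    refine ⟨l, hl, ?_⟩
    change lsum (graph (gA I)) l ≤ (elist (gA I)).length + 3 * I.2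
    rw [← hc]
    exact hs
  · rintro ⟨l, hl, hs⟩
    refine h.sound hI hl ?_
    change lsum (graph (gA I)) l ≤ (elist (gA I)).length + 3 * I.2 at hs
    rw [← hc] at hs
    exact hs

/-- the instance, with the number `q` capped by the number of triples -/
def redM (I : List (ℕ × ℕ × ℕ) × ℕ) : List (List ℕ) × ℕ := instM (I.1, min I.2 I.1.length)

theorem redM_eq {I : List (ℕ × ℕ × ℕ) × ℕ} (hI : Pr I.1 I.2) : redM I = instM I := by
  unfold redM
  rw [min_eq_left (Pool.Agent.R550.TD.q_le hI)]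

theorem poly_cap : NPC.Poly (fun I : List (ℕ × ℕ × ℕ) × ℕ => (I.1, min I.2 I.1.length)) := by
  fun_prop

theorem poly_okL : NPC.Poly (fun z : (List (ℕ × ℕ × ℕ) × ℕ) × Lab => okL z.1 z.2) := by
  unfold okL tr el
  fun_prop

theorem poly_ed : NPC.Poly (fun z : ((List (ℕ × ℕ × ℕ) × ℕ) × Lab) × Lab =>
    ed z.1.1 z.1.2 z.2) := by
  unfold ed tr el
  fun_prop

theorem poly_redM : NPC.Poly redM := by
  have hlen : UPoly (fun I : List (ℕ × ℕ × ℕ) × ℕ => I.1.length) :=
    UPoly.length (NPC.Poly.fst NPC.Poly.id)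
  have hmin : UPoly (fun I : List (ℕ × ℕ × ℕ) × ℕ => min I.2 I.1.length) :=
    UPoly.of_le (NPC.Poly.min (NPC.Poly.snd NPC.Poly.id) hlen.toPoly) hlen
      (fun I => Nat.min_le_right _ _)
  have h3 : UPoly (fun I : List (ℕ × ℕ × ℕ) × ℕ => 3 * min I.2 I.1.length) :=
    (UPoly.const 3).mul hmin
  have hvs : NPC.Poly (fun I : List (ℕ × ℕ × ℕ) × ℕ => vsL (I.1, min I.2 I.1.length)) := by
    unfold vsL
    have h4 : NPC.Poly (fun I : List (ℕ × ℕ × ℕ) × ℕ =>
        List.range (I.1.length + 3 * min I.2 I.1.length)) := (hlen.add h3).range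
    have h5 : NPC.Poly (fun I : List (ℕ × ℕ × ℕ) × ℕ =>
        List.range (3 * min I.2 I.1.length + 2)) := (h3.add (UPoly.const 2)).range
    have h6 : NPC.Poly (fun I : List (ℕ × ℕ × ℕ) × ℕ =>
        List.range (I.1.length + 3 * min I.2 I.1.length + 8)) :=
      ((hlen.add h3).add (UPoly.const 8)).range
    refine NPC.Poly.filter (p := fun (I : List (ℕ × ℕ × ℕ) × ℕ) x =>
      okL (I.1, min I.2 I.1.length) x) ?_ ?_
    · fun_prop
    · exact poly_okL.comp (f := fun z : (List (ℕ × ℕ × ℕ) × ℕ) × Lab =>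
        ((z.1.1, min z.1.2 z.1.1.length), z.2)) (by fun_prop)
  have hg : NPC.Poly (fun I : List (ℕ × ℕ × ℕ) × ℕ => gA (I.1, min I.2 I.1.length)) := by
    unfold gA
    refine poly_mkA hvs ?_
    exact poly_ed.comp (f := fun z : ((List (ℕ × ℕ × ℕ) × ℕ) × Lab) × Lab =>
        (((z.1.1.1, min z.1.1.2 z.1.1.1.length), z.1.2), z.2)) (by fun_prop)
  have he : NPC.Poly (fun I : List (ℕ × ℕ × ℕ) × ℕ =>
      elist (gA (I.1, min I.2 I.1.length))) := poly_elist.comp hg
  unfold redM instM
  fun_prop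

theorem minSum_hard : Pool.Agent.H673R2.NPHardOn
    (fun I : List (List ℕ) × ℕ => Nice (graph I.1) ∧ (graph I.1).IsBipartite)
    (fun I => mE (graph I.1) ≤ (I.2 : ℕ∞)) := by
  refine Pool.Agent.H673R2.npHardOn_of hardPr_X3Cr poly_redM ?_ ?_
  · intro I hI
    rw [redM_eq hI]
    obtain ⟨lab, h⟩ := exists_gad I
    exact ⟨h.nice hI, h.bip⟩
  · intro I hI
    rw [redM_eq hI]
    exact instM_iff hI

theorem minSum_npHard : NPHardP MinSum := by
  have h : Pool.Agent.H673R2.NPHardOn (fun _ : List (List ℕ) × ℕ => True) MinSum := by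
    intro L hL
    obtain ⟨f, hf, hpr, hfL⟩ := minSum_hard L hL
    exact ⟨f, hf, fun _ => trivial, fun x => (hfL x).trans
      ⟨fun h1 => ⟨(hpr x).1, h1⟩, fun h1 => h1.2⟩⟩
  exact h.toNPHardP

/-! ### Trees -/

theorem trees : ∃ F : List Bool → List Bool, PolyTime F ∧
    ∀ A : List (List ℕ), (graph A).IsTree → Nice (graph A) →
      ∃ N : ℕ, mE (graph A) = N ∧ F (bits A) = bits N := by
  have h1 : NPC.Poly (fun x : List Bool => (unbits (List (List ℕ)) x).map algo) :=
    NPC.Poly.optMap_fp (h := fun _ A => algo A) poly_unbits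
      (poly_algo.comp (NPC.Poly.snd NPC.Poly.id))
  refine ⟨_, polyTime_opt h1, fun A hA hn => ⟨algo A, algo_eq hA hn, ?_⟩⟩
  rw [unbits_bits]
  rfl

end Pool.Agent.R538.MS
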