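import Mathlib
import Pool.Agent.R550.GB.Graph

/-!
# Proper labellings with minimum label sum
-/

namespace Pool.Agent.R538.MS

open Classical in
/-- The colour of the vertex `v`: the sum of the labels of the edges containing `v`. -/
noncomputable def col {V : Type} [Fintype V] (G : SimpleGraph V) (l : Sym2 V → ℕ) (v : V) : ℕ :=
  ∑ e ∈ G.edgeFinset with v ∈ e, l e

/-- `l` is a proper labelling of `G`: the labels of the edges are positive integers, and adjacent
vertices have different colours. -/
def Proper {V : Type} [Fintype V] (G : SimpleGraph V) (l : Sym2 V → ℕ) : Prop :=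
  (∀ e ∈ G.edgeSet, 1 ≤ l e) ∧ ∀ u v, G.Adj u v → col G l u ≠ col G l v

open Classical in
/-- The label sum. -/
noncomputable def lsum {V : Type} [Fintype V] (G : SimpleGraph V) (l : Sym2 V → ℕ) : ℕ :=
  ∑ e ∈ G.edgeFinset, l e

/-- `mE(G)`: the minimum of the label sums of the proper labellings of `G` (`∞` if there is no
proper labelling). -/
noncomputable def mE {V : Type} [Fintype V] (G : SimpleGraph V) : ℕ∞ :=
  ⨅ (l : Sym2 V → ℕ) (_ : Proper G l), (lsum G l : ℕ∞)

/-- A graph is nice if none of its connected components is isomorphic to `K_2`. -/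
def Nice {V : Type} (G : SimpleGraph V) : Prop :=
  ∀ c : G.ConnectedComponent, IsEmpty (G.induce c.supp ≃g (⊤ : SimpleGraph (Fin 2)))

end Pool.Agent.R538.MS
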