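import Pool.Agent.R538.MS.Lst

/-!
# Elimination of a leaf
-/

namespace Pool.Agent.R538.MS

/-- entries of the table: vertex, colour, sum of the labels so far, cost -/
abbrev Ent := ℕ × ℕ × ℕ × ℕ

/-- there is a solution of total cost `N` -/
def Sol (A : List ℕ) (E : List (ℕ × ℕ)) (R : List Ent) (N : ℕ) : Prop :=
  ∃ (g : ℕ → ℕ × ℕ × ℕ) (f : ℕ × ℕ → ℕ),
    (∀ v ∈ A, (v, g v) ∈ R ∧ (g v).1 = (g v).2.1 + cs E f v) ∧
    (∀ p ∈ E, 1 ≤ f p ∧ (g p.1).1 ≠ (g p.2).1) ∧
    N = (A.map fun v => (g v).2.2).sum + (E.map f).sum

/-- all entries -/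
def box (n S : ℕ) : List Ent :=
  (List.range n) ×ˢ ((List.range (S + 1)) ×ˢ ((List.range (S + 1)) ×ˢ (List.range (S + 1))))

theorem mem_box {n S : ℕ} {y : Ent} : y ∈ box n S ↔
    y.1 < n ∧ y.2.1 ≤ S ∧ y.2.2.1 ≤ S ∧ y.2.2.2 ≤ S := by
  obtain ⟨a, b, c, d⟩ := y
  unfold box
  rw [mem_prodd, mem_prodd, mem_prodd]
  simp only [List.mem_range]
  omega

/-- the test for the combination of two entries -/
def comb (u p : ℕ) (y r q : Ent) : Bool :=
  decide (r.1 = p) && (decide (r.2.1 = y.2.1) && (decide (r.2.2.1 < y.2.2.1) &&
    (decide (q.1 = u) && (decide (q.2.1 = q.2.2.1 + (y.2.2.1 - r.2.2.1)) &&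
      (!decide (q.2.1 = y.2.1) &&
        decide (r.2.2.2 + q.2.2.2 + (y.2.2.1 - r.2.2.1) = y.2.2.2))))))

/-- the test for the new table -/
def newc (R : List Ent) (u p : ℕ) (y : Ent) : Bool :=
  !decide (y.1 = u) && ((!decide (y.1 = p) && decide (y ∈ R)) ||
    (decide (y.1 = p) && R.any fun r => R.any fun q => comb u p y r q))

theorem cs_perm {E E' : List (ℕ × ℕ)} (h : E.Perm E') (f : ℕ × ℕ → ℕ) (v : ℕ) :
    cs E f v = cs E' f v := by
  unfold cs
  exact ((h.filter _).map f).sum_eq

theorem cs_cons (e : ℕ × ℕ) (E : List (ℕ × ℕ)) (f : ℕ × ℕ → ℕ) (v : ℕ) :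
    cs (e :: E) f v = (if inc v e = true then f e else 0) + cs E f v := by
  unfold cs
  rw [List.filter_cons]
  split_ifs <;> simp

theorem cs_congr {E : List (ℕ × ℕ)} {f f' : ℕ × ℕ → ℕ} (h : ∀ z ∈ E, f z = f' z) (v : ℕ) :
    cs E f v = cs E f' v := by
  unfold cs
  congr 1
  exact List.map_congr_left fun z hz => h z (List.mem_of_mem_filter hz)

theorem cs_zero {E : List (ℕ × ℕ)} {f : ℕ × ℕ → ℕ} {v : ℕ} (h : ∀ z ∈ E, inc v z = false) :
    cs E f v = 0 := by
  unfold cs
  have : E.filter (inc v) = [] := by
    rw [List.filter_eq_nil_iff]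
    intro z hz
    rw [h z hz]
    decide
  rw [this]
  rfl

theorem cs_le (E : List (ℕ × ℕ)) (f : ℕ × ℕ → ℕ) (v : ℕ) : cs E f v ≤ (E.map f).sum := by
  unfold cs
  exact (List.Sublist.map f List.filter_sublist).sum_le_sum (fun _ _ => Nat.zero_le _)

theorem perm_filter_ne {α : Type} [DecidableEq α] {l : List α} (hl : l.Nodup) {a : α}
    (ha : a ∈ l) : l.Perm (a :: l.filter (fun x => !decide (x = a))) := by
  have h := List.perm_cons_erase ha
  rw [hl.erase_eq_filter] at h
  convert h using 2
  refine List.filter_congr fun x _ => ?_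
  by_cases hx : x = a <;> simp [hx]

/-- **Elimination of a leaf.** -/
theorem sol_elim {n S : ℕ} {A : List ℕ} {E : List (ℕ × ℕ)} {R : List Ent} {u p : ℕ}
    {e : ℕ × ℕ} (hA : A.Nodup) (hE : E.Nodup) (he : e ∈ E) (hue : e = (u, p) ∨ e = (p, u))
    (hup : u ≠ p) (hu : u ∈ A) (hp : p ∈ A) (honly : ∀ z ∈ E, inc u z = true → z = e)
    (hR : ∀ y ∈ R, y ∈ box n S) {N : ℕ} (hN : N ≤ S) :
    Sol A E R N ↔ Sol (A.filter fun v => !decide (v = u)) (E.filter fun z => !decide (z = e))
      ((box n S).filter (newc R u p)) N := by
  set A' := A.filter fun v => !decide (v = u) with hA'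
  set E' := E.filter fun z => !decide (z = e) with hE'
  have hEp : E.Perm (e :: E') := perm_filter_ne hE he
  have hAp : A.Perm (u :: A') := perm_filter_ne hA hu
  have hpA' : p ∈ A' := by
    rw [hA', List.mem_filter]
    exact ⟨hp, by simp [hup.symm]⟩
  have hA'n : A'.Nodup := hA.filter _
  have hAp' : A'.Perm (p :: A'.filter fun v => !decide (v = p)) := perm_filter_ne hA'n hpA'
  set A'' := A'.filter fun v => !decide (v = p) with hA''
  have hinc : ∀ v, inc v e = true ↔ v = u ∨ v = p := by
    intro v
    unfold inc
    rcases hue with h | h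
    · rw [h]
      simp only [Bool.or_eq_true, decide_eq_true_eq]
      constructor
      · rintro (h | h)
        · exact Or.inl h.symm
        · exact Or.inr h.symm
      · rintro (h | h)
        · exact Or.inl h.symm
        · exact Or.inr h.symm
    · rw [h]
      simp only [Bool.or_eq_true, decide_eq_true_eq]
      constructor
      · rintro (h | h)
        · exact Or.inr h.symm
        · exact Or.inl h.symm
      · rintro (h | h)
        · exact Or.inr h.symm
        · exact Or.inl h.symm
  have hcs : ∀ f v, cs E f v = (if inc v e = true then f e else 0) + cs E' f v := by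
    intro f v
    rw [cs_perm hEp, cs_cons]
  have hcsu : ∀ f, cs E' f u = 0 := by
    intro f
    refine cs_zero fun z hz => ?_
    rw [hE', List.mem_filter] at hz
    by_contra hcon
    have h1 := honly z hz.1 (by simpa using hcon)
    simp [h1] at hz
  have hsE : ∀ f : ℕ × ℕ → ℕ, (E.map f).sum = f e + (E'.map f).sum := by
    intro f
    rw [(hEp.map f).sum_eq, List.map_cons, List.sum_cons]
  have hsA : ∀ h : ℕ → ℕ, (A.map h).sum = h u + (h p + (A''.map h).sum) := by
    intro h
    rw [(hAp.map h).sum_eq, List.map_cons, List.sum_cons, (hAp'.map h).sum_eq, List.map_cons,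
      List.sum_cons]
  have hsA' : ∀ h : ℕ → ℕ, (A'.map h).sum = h p + (A''.map h).sum := by
    intro h
    rw [(hAp'.map h).sum_eq, List.map_cons, List.sum_cons]
  have hmA'' : ∀ v ∈ A'', v ≠ u ∧ v ≠ p := by
    intro v hv
    rw [hA'', List.mem_filter, hA', List.mem_filter] at hv
    simp only [Bool.not_eq_true', decide_eq_false_iff_not] at hv
    exact ⟨hv.1.2, hv.2⟩
  constructor
  · rintro ⟨g, f, h1, h2, h3⟩
    obtain ⟨hup1, hup2⟩ := h1 p hp
    obtain ⟨huu1, huu2⟩ := h1 u hu
    have hfe := (h2 e he).1
    have hpc : cs E f p = f e + cs E' f p := by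
      rw [hcs, if_pos ((hinc p).2 (Or.inr rfl))]
    have huc : cs E f u = f e := by
      rw [hcs, if_pos ((hinc u).2 (Or.inl rfl)), hcsu, add_zero]
    have hne : (g u).1 ≠ (g p).1 := by
      have := (h2 e he).2
      rcases hue with h | h
      · rw [h] at this
        exact this
      · rw [h] at this
        exact this.symm
    set g' : ℕ → ℕ × ℕ × ℕ := Function.update g p ((g p).1, (g p).2.1 + f e,
      (g p).2.2 + (g u).2.2 + f e) with hg'
    have hg'p : g' p = ((g p).1, (g p).2.1 + f e, (g p).2.2 + (g u).2.2 + f e) := by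
      rw [hg', Function.update_self]
    have hg'v : ∀ v, v ≠ p → g' v = g v := by
      intro v hv
      rw [hg', Function.update_of_ne hv]
    have hg'1 : ∀ v, (g' v).1 = (g v).1 := by
      intro v
      by_cases hv : v = p
      · rw [hv, hg'p]
      · rw [hg'v v hv]
    have hN' : N = (g u).2.2 + ((g p).2.2 + (A''.map fun v => (g v).2.2).sum) +
        (f e + (E'.map f).sum) := by
      rw [h3, hsA, hsE]
    refine ⟨g', f, ?_, ?_, ?_⟩
    · intro v hv
      have hv2 : v ∈ A ∧ v ≠ u := by
        rw [hA', List.mem_filter] at hv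
        simpa using hv
      by_cases hvp : v = p
      · subst hvp
        rw [hg'p]
        constructor
        · rw [List.mem_filter]
          have hb := mem_box.1 (hR _ hup1)
          simp only at hb
          refine ⟨mem_box.2 ?_, ?_⟩
          · simp only
            refine ⟨hb.1, hb.2.1, by omega, by omega⟩
          · unfold newc
            simp only [Bool.and_eq_true, Bool.or_eq_true, Bool.not_eq_true',
              decide_eq_false_iff_not, decide_eq_true_eq, List.any_eq_true]
            refine ⟨hv2.2, Or.inr ⟨trivial, _, hup1, _, huu1, ?_⟩⟩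
            unfold comb
            simp only [Bool.and_eq_true, Bool.not_eq_true', decide_eq_false_iff_not,
              decide_eq_true_eq]
            refine ⟨trivial, trivial, by omega, trivial, by omega, hne, by omega⟩
        · simp only
          omega
      · rw [hg'v v hvp]
        obtain ⟨h4, h5⟩ := h1 v hv2.1
        constructor
        · rw [List.mem_filter]
          refine ⟨hR _ h4, ?_⟩
          unfold newc
          simp only [Bool.and_eq_true, Bool.or_eq_true, Bool.not_eq_true',
              decide_eq_false_iff_not, decide_eq_true_eq]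
          exact ⟨hv2.2, Or.inl ⟨hvp, h4⟩⟩
        · rw [h5, hcs, if_neg, zero_add]
          rw [hinc]
          rintro (h6 | h6)
          · exact hv2.2 h6
          · exact hvp h6
    · intro z hz
      rw [hg'1, hg'1]
      exact h2 z (List.mem_of_mem_filter hz)
    · rw [hN', hsA', hg'p]
      have h6 : (A''.map fun v => (g' v).2.2) = A''.map fun v => (g v).2.2 := by
        refine List.map_congr_left fun v hv => ?_
        rw [hg'v v (hmA'' v hv).2]
      rw [h6]
      simp only
      ring
  · rintro ⟨g', f', h1, h2, h3⟩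
    obtain ⟨hp1, hp2⟩ := h1 p hpA'
    rw [List.mem_filter] at hp1
    obtain ⟨-, hp1⟩ := hp1
    unfold newc at hp1
    simp only [Bool.and_eq_true, Bool.or_eq_true, Bool.not_eq_true',
      decide_eq_false_iff_not, decide_eq_true_eq, List.any_eq_true] at hp1
    obtain ⟨-, h4 | ⟨-, r, hr, q, hq, hcomb⟩⟩ := hp1
    · exact absurd trivial h4.1
    obtain ⟨r1, r2, r3, r4⟩ := r
    obtain ⟨q1, q2, q3, q4⟩ := q
    unfold comb at hcomb
    simp only [Bool.and_eq_true, Bool.not_eq_true', decide_eq_false_iff_not,
      decide_eq_true_eq] at hcomb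
    obtain ⟨rfl, rfl, h6, rfl, h7, h8, h9⟩ := hcomb
    set x := (g' r1).2.1 - r3 with hx
    set g : ℕ → ℕ × ℕ × ℕ := Function.update (Function.update g' r1 ((g' r1).1, r3, r4)) q1
      (q2, q3, q4) with hg
    set f : ℕ × ℕ → ℕ := Function.update f' e x with hf
    have hgu : g q1 = (q2, q3, q4) := by rw [hg, Function.update_self]
    have hgp : g r1 = ((g' r1).1, r3, r4) := by
      rw [hg, Function.update_of_ne hup.symm, Function.update_self]
    have hgv : ∀ v, v ≠ q1 → v ≠ r1 → g v = g' v := by
      intro v h10 h11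
      rw [hg, Function.update_of_ne h10, Function.update_of_ne h11]
    have hg1 : ∀ v, v ≠ q1 → (g v).1 = (g' v).1 := by
      intro v hv
      by_cases hv' : v = r1
      · rw [hv', hgp]
      · rw [hgv v hv hv']
    have hfe : f e = x := by rw [hf, Function.update_self]
    have hfE' : ∀ z ∈ E', f z = f' z := by
      intro z hz
      rw [hE', List.mem_filter] at hz
      rw [hf, Function.update_of_ne (by simpa using hz.2)]
    refine ⟨g, f, ?_, ?_, ?_⟩
    · intro v hv
      by_cases hvu : v = q1
      · subst hvu
        rw [hgu]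
        refine ⟨hq, ?_⟩
        simp only
        rw [hcs, if_pos ((hinc v).2 (Or.inl rfl)), hcsu, hfe]
        omega
      · by_cases hvp : v = r1
        · subst hvp
          rw [hgp]
          refine ⟨hr, ?_⟩
          simp only
          rw [hcs, if_pos ((hinc v).2 (Or.inr rfl)), hfe, cs_congr hfE', hp2]
          omega
        · have hvA' : v ∈ A' := by
            rw [hA', List.mem_filter]
            exact ⟨hv, by simp [hvu]⟩
          obtain ⟨h10, h11⟩ := h1 v hvA'
          rw [hgv v hvu hvp]
          constructor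
          · rw [List.mem_filter] at h10
            obtain ⟨-, h12⟩ := h10
            unfold newc at h12
            simp only [Bool.and_eq_true, Bool.or_eq_true, Bool.not_eq_true',
              decide_eq_false_iff_not, decide_eq_true_eq] at h12
            rcases h12.2 with h13 | h13
            · exact h13.2
            · exact absurd h13.1 hvp
          · rw [hcs, if_neg, zero_add, cs_congr hfE']
            · exact h11
            · rw [hinc]
              rintro (h12 | h12)
              · exact hvu h12
              · exact hvp h12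
    · intro z hz
      by_cases hze : z = e
      · rw [hze, hfe]
        refine ⟨by omega, ?_⟩
        rcases hue with h | h
        · rw [h]
          simp only
          rw [hgu, hgp]
          exact h8
        · rw [h]
          simp only
          rw [hgu, hgp]
          exact Ne.symm h8
      · have hzE' : z ∈ E' := by
          rw [hE', List.mem_filter]
          exact ⟨hz, by simp [hze]⟩
        have hzu : inc q1 z = false := by
          by_contra h10
          exact hze (honly z hz (by simpa using h10))
        unfold inc at hzu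
        simp only [Bool.or_eq_false_iff, decide_eq_false_iff_not] at hzu
        rw [hfE' z hzE', hg1 _ hzu.1, hg1 _ hzu.2]
        exact h2 z hzE'
    · rw [h3, hsA', hsA, hsE, hgu, hgp, hfe]
      have h10 : (A''.map fun v => (g v).2.2) = A''.map fun v => (g' v).2.2 := by
        refine List.map_congr_left fun v hv => ?_
        rw [hgv v (hmA'' v hv).1 (hmA'' v hv).2]
      have h11 : E'.map f = E'.map f' := List.map_congr_left hfE'
      rw [h10, h11]
      simp only
      omega

end Pool.Agent.R538.MS
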