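import Pool.Agent.R538.MS.Base
import Pool.Agent.R550.TD.Main

/-!
# The gadget graph
-/

namespace Pool.Agent.R538.MS

open Finset Pool.Agent.NPC.H632 Pool.Agent.H557R2.Tri

/-- labels of the vertices -/
abbrev Lab := ℕ × ℕ × ℕ × ℕ

/-- the `i`-th triple -/
def tr (I : List (ℕ × ℕ × ℕ) × ℕ) (i : ℕ) : ℕ × ℕ × ℕ := I.1.getD i (0, 0, 0)

/-- valid labels; the numbers `m`, `n` of the triples and of the elements are given -/
def okL (I : List (ℕ × ℕ × ℕ) × ℕ) (x : Lab) : Bool :=
  (decide (x.1 = 0) && (decide (x.2.1 < I.1.length) && (decide (x.2.2.1 = 0) &&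
    decide (x.2.2.2 = 0)))) ||
  ((decide (x.1 = 1) && (decide (x.2.1 < 3 * I.2) && (decide (x.2.2.1 = 0) &&
    decide (x.2.2.2 = 0)))) ||
  ((decide (x.1 = 2) && (decide (x.2.1 < 3 * I.2) && (decide (x.2.2.1 < 3 * I.2 + 1) &&
    decide (x.2.2.2 = 0)))) ||
  ((decide (x.1 = 3) && (decide (x.2.1 < I.1.length) && (decide (x.2.2.1 < 2) &&
    decide (x.2.2.2 = 0)))) ||
  ((decide (x.1 = 4) && (decide (x.2.1 < I.1.length) && (decide (x.2.2.1 = 0) &&
    decide (x.2.2.2 < I.1.length + 3 * I.2 + 2)))) ||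
  ((decide (x.1 = 5) && (decide (x.2.1 < 3 * I.2) && (decide (x.2.2.1 < 3 * I.2 + 1) &&
    (decide (x.2.2.2 < I.1.length) && decide (x.2.1 ∈ el (tr I x.2.2.2)))))) ||
  ((decide (x.1 = 6) && (decide (x.2.1 < 3 * I.2) && (decide (x.2.2.1 < 3 * I.2 + 1) &&
    decide (x.2.2.2 < 3 * I.2)))) ||
  (decide (x.1 = 7) && (decide (x.2.1 < I.1.length) && (decide (x.2.2.1 < 2) &&
    decide (x.2.2.2 < I.1.length + 3 * I.2 + 7 + x.2.2.1))))))))))

/-- the edges on the labels -/
def ed (I : List (ℕ × ℕ × ℕ) × ℕ) (x y : Lab) : Bool :=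
  (decide (x.1 = 0) && (decide (y.1 = 1) && decide (y.2.1 ∈ el (tr I x.2.1)))) ||
  ((decide (x.1 = 1) && (decide (y.1 = 2) && decide (y.2.1 = x.2.1))) ||
  ((decide (x.1 = 0) && (decide (y.1 = 3) && decide (y.2.1 = x.2.1))) ||
  ((decide (x.1 = 0) && (decide (y.1 = 4) && decide (y.2.1 = x.2.1))) ||
  ((decide (x.1 = 2) && (decide (y.1 = 5) && (decide (y.2.1 = x.2.1) &&
    decide (y.2.2.1 = x.2.2.1)))) ||
  ((decide (x.1 = 2) && (decide (y.1 = 6) && (decide (y.2.1 = x.2.1) &&
    decide (y.2.2.1 = x.2.2.1)))) ||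
  (decide (x.1 = 3) && (decide (y.1 = 7) && (decide (y.2.1 = x.2.1) &&
    decide (y.2.2.1 = x.2.2.1)))))))))

variable {I : List (ℕ × ℕ × ℕ) × ℕ}

theorem ok_lt {x : Lab} (h : okL I x = true) : x.1 < 8 := by
  simp only [okL, Bool.or_eq_true, Bool.and_eq_true, decide_eq_true_eq] at h
  omega

theorem ed_ne {x y : Lab} (h : ed I x y = true) : x.1 ≠ y.1 := by
  simp only [ed, Bool.or_eq_true, Bool.and_eq_true, decide_eq_true_eq] at h
  omega

variable {V : Type} [Fintype V] {G : SimpleGraph V} {lab : V → Lab}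

/-- The labelled graph of the reduction. -/
structure Gad (I : List (ℕ × ℕ × ℕ) × ℕ) (G : SimpleGraph V) (lab : V → Lab) : Prop where
  inj : Function.Injective lab
  ok : ∀ v, okL I (lab v) = true
  ex : ∀ x, okL I x = true → ∃ v, lab v = x
  adj : ∀ u v, G.Adj u v ↔ ed I (lab u) (lab v) = true ∨ ed I (lab v) (lab u) = true

theorem Gad.card_eq (h : Gad I G lab) (P : V → Prop) [DecidablePred P] (L : List Lab) (hL : L.Nodup)
    (h1 : ∀ y, y ∈ L ↔ ∃ v, lab v = y ∧ P v) : (univ.filter P).card = L.length := by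
  rw [← List.toFinset_card_of_nodup hL, ← Finset.card_map ⟨lab, h.inj⟩]
  congr 1
  ext y
  simp only [mem_map, mem_filter, mem_univ, true_and, Function.Embedding.coeFn_mk,
    List.mem_toFinset, h1]
  constructor
  · rintro ⟨v, hv, rfl⟩
    exact ⟨v, rfl, hv⟩
  · rintro ⟨v, rfl, hv⟩
    exact ⟨v, hv, rfl⟩

open Classical in
theorem Gad.deg (h : Gad I G lab) (v : V) (L : List Lab) (hL : L.Nodup)
    (h1 : ∀ y, y ∈ L ↔ okL I y = true ∧ (ed I (lab v) y = true ∨ ed I y (lab v) = true)) :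
    G.degree v = L.length := by
  rw [← h.card_eq (fun u => G.Adj v u) L hL, ← SimpleGraph.card_neighborFinset_eq_degree]
  · congr 1
    ext u
    simp
  · intro y
    rw [h1]
    constructor
    · rintro ⟨h2, h3⟩
      obtain ⟨u, rfl⟩ := h.ex y h2
      exact ⟨u, rfl, (h.adj _ _).2 h3⟩
    · rintro ⟨u, rfl, hu⟩
      exact ⟨h.ok u, (h.adj _ _).1 hu⟩

/-- the triples containing `j` -/
def occL (I : List (ℕ × ℕ × ℕ) × ℕ) (j : ℕ) : List ℕ :=
  (List.range I.1.length).filter fun i => decide (j ∈ el (tr I i))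

theorem occL_le (j : ℕ) : (occL I j).length ≤ I.1.length := by
  unfold occL
  exact (List.length_filter_le _ _).trans (by simp)

open Classical in
theorem Gad.deg_w (h : Gad I G lab) {v : V} {j : ℕ} (hv : lab v = (1, j, 0, 0)) :
    G.degree v = (occL I j).length + (3 * I.2 + 1) := by
  have hok := h.ok v
  rw [hv] at hok
  have hj : j < 3 * I.2 := by
    simpa [okL] using hok
  rw [h.deg v ((occL I j).map (fun i => (0, i, 0, 0)) ++
    (List.range (3 * I.2 + 1)).map (fun l => (2, j, l, 0)))]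
  · simp
  · rw [List.nodup_append]
    refine ⟨?_, ?_, ?_⟩
    · refine List.Nodup.map (fun a b hab => ?_) (List.Nodup.filter _ List.nodup_range)
      simpa using hab
    · refine List.Nodup.map (fun a b hab => ?_) List.nodup_range
      simpa using hab
    · intro a ha b hb
      simp only [List.mem_map] at ha hb
      obtain ⟨i, _, rfl⟩ := ha
      obtain ⟨l, _, rfl⟩ := hb
      simp
  · rintro ⟨t, a, b, c⟩
    rw [hv]
    unfold occL
    simp only [List.mem_append, List.mem_map, List.mem_filter, List.mem_range, Prod.mk.injEq,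
      decide_eq_true_eq]
    constructor
    · rintro (⟨i, ⟨h1, h2⟩, rfl, rfl, rfl, rfl⟩ | ⟨l, h1, rfl, rfl, rfl, rfl⟩)
      · simp [okL, ed, h1, h2]
      · simp [okL, ed, h1, hj]
    · rintro ⟨h1, h2⟩
      have h3 := ok_lt h1
      simp only at h3
      interval_cases t
      · simp [okL, ed] at h1 h2
        exact Or.inl ⟨a, ⟨h1.1, h2⟩, rfl, rfl, h1.2.1.symm, h1.2.2.symm⟩
      · simp [ed] at h2
      · simp [okL, ed] at h1 h2
        exact Or.inr ⟨b, by omega, rfl, h2.symm, rfl, h1.2.2.symm⟩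
      all_goals simp [ed] at h2

open Classical in
theorem Gad.deg_g (h : Gad I G lab) {v : V} {j l : ℕ} (hv : lab v = (2, j, l, 0)) :
    G.degree v = (occL I j).length + (3 * I.2 + 1) := by
  have hok := h.ok v
  rw [hv] at hok
  have hj : j < 3 * I.2 ∧ l < 3 * I.2 + 1 := by
    simpa [okL] using hok
  rw [h.deg v ((1, j, 0, 0) :: ((occL I j).map (fun c => (5, j, l, c)) ++
    (List.range (3 * I.2)).map (fun c => (6, j, l, c))))]
  · simp
    omega
  · rw [List.nodup_cons, List.nodup_append]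
    refine ⟨by simp, ?_, ?_, ?_⟩
    · refine List.Nodup.map (fun a b hab => ?_) (List.Nodup.filter _ List.nodup_range)
      simpa using hab
    · refine List.Nodup.map (fun a b hab => ?_) List.nodup_range
      simpa using hab
    · intro a ha b hb
      simp only [List.mem_map] at ha hb
      obtain ⟨i, _, rfl⟩ := ha
      obtain ⟨l, _, rfl⟩ := hb
      simp
  · rintro ⟨t, a, b, c⟩
    rw [hv]
    unfold occL
    simp only [List.mem_cons, List.mem_append, List.mem_map, List.mem_filter, List.mem_range,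
      Prod.mk.injEq, decide_eq_true_eq]
    constructor
    · rintro (⟨rfl, rfl, rfl, rfl⟩ | ⟨i, ⟨h1, h2⟩, rfl, rfl, rfl, rfl⟩ |
        ⟨i, h1, rfl, rfl, rfl, rfl⟩)
      · simp [okL, ed, hj.1]
      · simp [okL, ed, h1, h2, hj]
      · simp [okL, ed, h1, hj]
    · rintro ⟨h1, h2⟩
      have h3 := ok_lt h1
      simp only at h3
      interval_cases t
      · simp [ed] at h2
      · simp [okL, ed] at h1 h2
        exact Or.inl ⟨rfl, h2.symm, h1.2.1, h1.2.2⟩
      · simp [ed] at h2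
      · simp [ed] at h2
      · simp [ed] at h2
      · simp [okL, ed] at h1 h2
        obtain ⟨h2, h4⟩ := h2
        subst h2 h4
        exact Or.inr (Or.inl ⟨c, ⟨h1.2.2.1, h1.2.2.2⟩, rfl, rfl, rfl, rfl⟩)
      · simp [okL, ed] at h1 h2
        obtain ⟨h2, h4⟩ := h2
        subst h2 h4
        exact Or.inr (Or.inr ⟨c, h1.2.2, rfl, rfl, rfl, rfl⟩)
      · simp [ed] at h2

theorem tr_mem {i : ℕ} (hi : i < I.1.length) : tr I i ∈ I.1 := getD_mem hi

theorem nodup_el (hI : Pr I.1 I.2) {t : ℕ × ℕ × ℕ} (ht : t ∈ I.1) : (el t).Nodup := by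
  have h1 := hI.d01 t ht t ht
  have h2 := hI.d02 t ht t ht
  have h3 := hI.d12 t ht t ht
  simp [el, h1, h2, h3]

theorem el_lt (hI : Pr I.1 I.2) {t : ℕ × ℕ × ℕ} (ht : t ∈ I.1) {j : ℕ} (hj : j ∈ el t) :
    j < 3 * I.2 := by
  obtain ⟨h1, h2, h3⟩ := hI.lt t ht
  simp only [el, List.mem_cons, List.not_mem_nil, or_false] at hj
  rcases hj with rfl | rfl | rfl <;> assumption

open Classical in
theorem Gad.deg_u (hI : Pr I.1 I.2) (h : Gad I G lab) {v : V} {i : ℕ}
    (hv : lab v = (0, i, 0, 0)) : G.degree v = I.1.length + 3 * I.2 + 7 := by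
  have hok := h.ok v
  rw [hv] at hok
  have hi : i < I.1.length := by
    simpa [okL] using hok
  rw [h.deg v ((el (tr I i)).map (fun j => (1, j, 0, 0)) ++
    ((List.range 2).map (fun s => (3, i, s, 0)) ++
      (List.range (I.1.length + 3 * I.2 + 2)).map (fun c => (4, i, 0, c))))]
  · simp [el]
    omega
  · rw [List.nodup_append, List.nodup_append]
    refine ⟨?_, ⟨?_, ?_, ?_⟩, ?_⟩
    · refine List.Nodup.map (fun a b hab => ?_) (nodup_el hI (tr_mem hi))
      simpa using hab
    · refine List.Nodup.map (fun a b hab => ?_) List.nodup_range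
      simpa using hab
    · refine List.Nodup.map (fun a b hab => ?_) List.nodup_range
      simpa using hab
    · intro a ha b hb
      simp only [List.mem_map] at ha hb
      obtain ⟨i, _, rfl⟩ := ha
      obtain ⟨l, _, rfl⟩ := hb
      simp
    · intro a ha b hb
      simp only [List.mem_append, List.mem_map] at ha hb
      obtain ⟨i, _, rfl⟩ := ha
      rcases hb with ⟨l, _, rfl⟩ | ⟨l, _, rfl⟩ <;> simp
  · rintro ⟨t, a, b, c⟩
    rw [hv]
    simp only [List.mem_append, List.mem_map, List.mem_range, Prod.mk.injEq]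
    constructor
    · rintro (⟨j, h1, rfl, rfl, rfl, rfl⟩ | ⟨s, h1, rfl, rfl, rfl, rfl⟩ |
        ⟨s, h1, rfl, rfl, rfl, rfl⟩)
      · simp [okL, ed, h1, el_lt hI (tr_mem hi) h1]
      · simp [okL, ed, h1, hi]
      · simp [okL, ed, h1, hi]
    · rintro ⟨h1, h2⟩
      have h3 := ok_lt h1
      simp only at h3
      interval_cases t
      · simp [ed] at h2
      · simp [okL, ed] at h1 h2
        exact Or.inl ⟨a, h2, rfl, rfl, h1.2.1.symm, h1.2.2.symm⟩
      · simp [ed] at h2
      · simp [okL, ed] at h1 h2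
        exact Or.inr (Or.inl ⟨b, by omega, rfl, h2.symm, rfl, h1.2.2.symm⟩)
      · simp [okL, ed] at h1 h2
        exact Or.inr (Or.inr ⟨c, h1.2.2, rfl, h2.symm, h1.2.1.symm, rfl⟩)
      all_goals simp [ed] at h2

open Classical in
theorem Gad.deg_b (h : Gad I G lab) {v : V} {i s : ℕ}
    (hv : lab v = (3, i, s, 0)) : G.degree v = I.1.length + 3 * I.2 + 7 + s + 1 := by
  have hok := h.ok v
  rw [hv] at hok
  have hi : i < I.1.length ∧ s < 2 := by
    simpa [okL] using hok
  rw [h.deg v ((0, i, 0, 0) ::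
      (List.range (I.1.length + 3 * I.2 + 7 + s)).map (fun c => (7, i, s, c)))]
  · simp
  · rw [List.nodup_cons]
    refine ⟨by simp, ?_⟩
    refine List.Nodup.map (fun a b hab => ?_) List.nodup_range
    simpa using hab
  · rintro ⟨t, a, b, c⟩
    rw [hv]
    simp only [List.mem_cons, List.mem_map, List.mem_range, Prod.mk.injEq]
    constructor
    · rintro (⟨rfl, rfl, rfl, rfl⟩ | ⟨s, h1, rfl, rfl, rfl, rfl⟩)
      · simp [okL, ed, hi.1]
      · simp [okL, ed, h1, hi]
    · rintro ⟨h1, h2⟩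
      have h3 := ok_lt h1
      simp only at h3
      interval_cases t
      · simp [okL, ed] at h1 h2
        exact Or.inl ⟨rfl, h2.symm, h1.2.1, h1.2.2⟩
      · simp [ed] at h2
      · simp [ed] at h2
      · simp [ed] at h2
      · simp [ed] at h2
      · simp [ed] at h2
      · simp [ed] at h2
      · simp [okL, ed] at h1 h2
        obtain ⟨h2, h4⟩ := h2
        subst h2 h4
        exact Or.inr ⟨c, h1.2.2, rfl, rfl, rfl, rfl⟩

open Classical in
/-- the vertices of types at least `4` are leaves -/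
theorem Gad.deg_leaf (h : Gad I G lab) {v : V} (hv : 4 ≤ (lab v).1) : G.degree v = 1 := by
  rcases hlab : lab v with ⟨t, a, b, c⟩
  have hok := h.ok v
  rw [hlab] at hok hv
  have h3 := ok_lt hok
  simp only at h3 hv
  have key : ∀ z : Lab, okL I z = true → (∀ y, okL I y = true →
      ((ed I (lab v) y = true ∨ ed I y (lab v) = true) ↔ y = z)) → G.degree v = 1 := by
    intro z hz hy
    rw [h.deg v [z]]
    · simp
    · simp
    · intro y
      simp only [List.mem_singleton]
      constructor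
      · rintro rfl
        exact ⟨hz, (hy y hz).2 rfl⟩
      · rintro ⟨h1, h2⟩
        exact (hy y h1).1 h2
  interval_cases t
  · simp [okL] at hok
    refine key (0, a, 0, 0) (by simp [okL, hok.1]) ?_
    rintro ⟨t, a', b', c'⟩ hy
    rw [hlab]
    have h3 := ok_lt hy
    simp only at h3
    interval_cases t <;> simp [ed, okL] at hy ⊢
    exact ⟨fun h => ⟨h.symm, hy.2⟩, fun h => h.1.symm⟩
  · simp [okL] at hok
    refine key (2, a, b, 0) (by simp [okL, hok.1, hok.2.1]) ?_
    rintro ⟨t, a', b', c'⟩ hy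
    rw [hlab]
    have h3 := ok_lt hy
    simp only at h3
    interval_cases t <;> simp [ed, okL] at hy ⊢
    exact ⟨fun h => ⟨h.1.symm, h.2.symm, hy.2.2⟩, fun h => ⟨h.1.symm, h.2.1.symm⟩⟩
  · simp [okL] at hok
    refine key (2, a, b, 0) (by simp [okL, hok.1, hok.2.1]) ?_
    rintro ⟨t, a', b', c'⟩ hy
    rw [hlab]
    have h3 := ok_lt hy
    simp only at h3
    interval_cases t <;> simp [ed, okL] at hy ⊢
    exact ⟨fun h => ⟨h.1.symm, h.2.symm, hy.2.2⟩, fun h => ⟨h.1.symm, h.2.1.symm⟩⟩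
  · simp [okL] at hok
    refine key (3, a, b, 0) (by simp [okL, hok.1, hok.2.1]) ?_
    rintro ⟨t, a', b', c'⟩ hy
    rw [hlab]
    have h3 := ok_lt hy
    simp only at h3
    interval_cases t <;> simp [ed, okL] at hy ⊢
    exact ⟨fun h => ⟨h.1.symm, h.2.symm, hy.2.2⟩, fun h => ⟨h.1.symm, h.2.1.symm⟩⟩

end Pool.Agent.R538.MS
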