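import Pool.Agent.R538.MS.Elim

/-!
# The algorithm for trees
-/

namespace Pool.Agent.R538.MS

open Pool.Agent.R550.GB

/-- states of the algorithm: remaining vertices, remaining edges, table -/
abbrev St := List ℕ × List (ℕ × ℕ) × List Ent

/-- elimination of the leaf `u` with neighbour `p` and edge `e` -/
def elimS (n S u p : ℕ) (e : ℕ × ℕ) (st : St) : St :=
  (st.1.filter fun v => !decide (v = u), st.2.1.filter fun z => !decide (z = e),
    (box n S).filter (newc st.2.2 u p))

/-- exactly one edge contains `v` -/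
def lf (E : List (ℕ × ℕ)) (v : ℕ) : Bool := decide ((E.filter (inc v)).length = 1)

/-- one step: eliminate a leaf if there is one -/
def step (n S : ℕ) (st : St) : St :=
  ((st.2.1.filter fun z => lf st.2.1 z.1 || lf st.2.1 z.2).head?).elim st fun z =>
    if lf st.2.1 z.1 = true then elimS n S z.1 z.2 z st else elimS n S z.2 z.1 z st

/-- the start -/
def init (G : List (List ℕ)) (S : ℕ) : St :=
  (List.range G.length, elist G,
    (box G.length S).filter fun y => decide (y.2.2.1 = 0) && decide (y.2.2.2 = 0))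

/-- the bound -/
def bnd (G : List (List ℕ)) : ℕ := (elist G).length * ((elist G).length + 1)

/-- the least cost of a final entry -/
def outp (S : ℕ) (R : List Ent) : ℕ :=
  (((List.range (S + 1)).filter fun c =>
    R.any fun y => decide (y.2.1 = y.2.2.1) && decide (y.2.2.2 = c)).head?).elim 0 fun c => c

/-- the algorithm -/
def algo (G : List (List ℕ)) : ℕ :=
  outp (bnd G) ((step G.length (bnd G))^[(elist G).length] (init G (bnd G))).2.2

/-- the invariant -/
structure Inv (G : List (List ℕ)) (S : ℕ) (st : St) : Prop where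
  nA : st.1.Nodup
  nE : st.2.1.Nodup
  subE : ∀ z ∈ st.2.1, z ∈ elist G
  endA : ∀ z ∈ st.2.1, z.1 ∈ st.1 ∧ z.2 ∈ st.1
  tab : ∀ y ∈ st.2.2, y ∈ box G.length S ∧ y.1 ∈ st.1
  sol : ∀ N ≤ S, Sol st.1 st.2.1 st.2.2 N ↔
    ∃ f, PropL (elist G) f ∧ ((elist G).map f).sum = N
  card : st.1.length = st.2.1.length + 1

theorem length_filter_ne {α : Type} [DecidableEq α] {l : List α} (hl : l.Nodup) {a : α}
    (ha : a ∈ l) : (l.filter (fun x => !decide (x = a))).length + 1 = l.length := by
  have h := (perm_filter_ne hl ha).length_eq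
  rw [h, List.length_cons]

theorem lf_only {E : List (ℕ × ℕ)} {u : ℕ} (h : lf E u = true) {e : ℕ × ℕ} (he : e ∈ E)
    (hue : inc u e = true) : ∀ z ∈ E, inc u z = true → z = e := by
  intro z hz hzu
  unfold lf at h
  rw [decide_eq_true_eq, List.length_eq_one_iff] at h
  obtain ⟨a, ha⟩ := h
  have h1 : z ∈ E.filter (inc u) := List.mem_filter.2 ⟨hz, hzu⟩
  have h2 : e ∈ E.filter (inc u) := List.mem_filter.2 ⟨he, hue⟩
  rw [ha, List.mem_singleton] at h1 h2
  rw [h1, h2]

theorem inv_elim {G : List (List ℕ)} {S : ℕ} {st : St} (h : Inv G S st) {u p : ℕ} {e : ℕ × ℕ}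
    (he : e ∈ st.2.1) (hue : e = (u, p) ∨ e = (p, u)) (hlf : lf st.2.1 u = true) :
    Inv G S (elimS G.length S u p e st) ∧
      (elimS G.length S u p e st).2.1.length + 1 = st.2.1.length := by
  have hinc : inc u e = true := by
    unfold inc
    rcases hue with h1 | h1 <;> rw [h1] <;> simp
  have honly := lf_only hlf he hinc
  have hA : u ∈ st.1 ∧ p ∈ st.1 := by
    have h1 := h.endA e he
    rcases hue with h2 | h2
    · rw [h2] at h1
      exact h1
    · rw [h2] at h1
      exact h1.symm
  have hup : u ≠ p := by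
    obtain ⟨_, _, h1, -⟩ := mem_elist.1 (h.subE e he)
    rcases hue with h2 | h2
    · rw [h2] at h1
      exact h1.ne
    · rw [h2] at h1
      exact h1.ne'
  have hlE := length_filter_ne h.nE he
  have hlA := length_filter_ne h.nA hA.1
  refine ⟨⟨h.nA.filter _, h.nE.filter _, ?_, ?_, ?_, ?_, ?_⟩, hlE⟩
  · intro z hz
    exact h.subE z (List.mem_of_mem_filter hz)
  · intro z hz
    unfold elimS at hz ⊢
    simp only [List.mem_filter, Bool.not_eq_true', decide_eq_false_iff_not] at hz ⊢
    obtain ⟨h1, h2⟩ := h.endA z hz.1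
    refine ⟨⟨h1, fun h3 => hz.2 (honly z hz.1 ?_)⟩, ⟨h2, fun h3 => hz.2 (honly z hz.1 ?_)⟩⟩
    · unfold inc
      simp [h3]
    · unfold inc
      simp [h3]
  · intro y hy
    unfold elimS at hy ⊢
    simp only [List.mem_filter, Bool.not_eq_true', decide_eq_false_iff_not] at hy ⊢
    refine ⟨hy.1, ?_⟩
    obtain ⟨-, h1⟩ := hy
    unfold newc at h1
    simp only [Bool.and_eq_true, Bool.or_eq_true, Bool.not_eq_true', decide_eq_false_iff_not,
      decide_eq_true_eq] at h1
    obtain ⟨h1, h2⟩ := h1
    refine ⟨?_, h1⟩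
    rcases h2 with h2 | h2
    · exact (h.tab y h2.2).2
    · rw [h2.1]
      exact hA.2
  · intro N hN
    rw [← h.sol N hN]
    exact (sol_elim h.nA h.nE he hue hup hA.1 hA.2 honly (fun y hy => (h.tab y hy).1) hN).symm
  · have h1 := h.card
    change (st.1.filter fun v => !decide (v = u)).length =
      (st.2.1.filter fun z => !decide (z = e)).length + 1
    omega

theorem inv_step {G : List (List ℕ)} {S : ℕ} {st : St} (h : Inv G S st)
    (hl : ∃ z ∈ st.2.1, lf st.2.1 z.1 = true ∨ lf st.2.1 z.2 = true) :
    Inv G S (step G.length S st) ∧ (step G.length S st).2.1.length + 1 = st.2.1.length := by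
  unfold step
  cases hh : (st.2.1.filter fun z => lf st.2.1 z.1 || lf st.2.1 z.2).head? with
  | none =>
    exfalso
    rw [List.head?_eq_none_iff, List.filter_eq_nil_iff] at hh
    obtain ⟨z, hz, h1⟩ := hl
    exact hh z hz (by simpa using h1)
  | some z =>
    have hz := List.mem_of_mem_head? hh
    rw [List.mem_filter, Bool.or_eq_true] at hz
    simp only [Option.elim_some]
    by_cases h1 : lf st.2.1 z.1 = true
    · rw [if_pos h1]
      exact inv_elim h hz.1 (Or.inl rfl) h1
    · rw [if_neg h1]
      have h2 : lf st.2.1 z.2 = true := by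
        rcases hz.2 with h3 | h3
        · exact absurd h3 h1
        · exact h3
      exact inv_elim h hz.1 (Or.inr rfl) h2

theorem exists_leaf {n : ℕ} {H : SimpleGraph (Fin n)} (hH : H.IsAcyclic) {a b : Fin n}
    (hab : H.Adj a b) : ∃ u p, H.Adj u p ∧ ∀ w, H.Adj u w → w = p := by
  classical
  set c := H.connectedComponentMk a with hc
  have hT : c.toSimpleGraph.IsTree := hH.isTree_connectedComponent c
  have ha : a ∈ c.supp := rfl
  have hb : b ∈ c.supp := c.mem_supp_of_adj_mem_supp ha hab
  haveI : Nontrivial c.supp := ⟨⟨a, ha⟩, ⟨b, hb⟩, fun h => hab.ne (congrArg Subtype.val h)⟩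
  obtain ⟨u, hu⟩ := hT.exists_vert_degree_one_of_nontrivial
  rw [SimpleGraph.degree_eq_one_iff_existsUnique_adj] at hu
  obtain ⟨p, hp, hpu⟩ := hu
  refine ⟨u, p, hp, fun w hw => ?_⟩
  have hw' : w ∈ c.supp := c.mem_supp_of_adj_mem_supp u.2 hw
  exact congrArg Subtype.val (hpu ⟨w, hw'⟩ hw)

theorem leaf_of_acyclic {G : List (List ℕ)} (hG : (graph G).IsAcyclic) {E : List (ℕ × ℕ)}
    (hE : E.Nodup) (hsub : ∀ z ∈ E, z ∈ elist G) (hne : E ≠ []) :
    ∃ z ∈ E, lf E z.1 = true ∨ lf E z.2 = true := by
  classical
  let H : SimpleGraph (Fin G.length) := SimpleGraph.fromRel fun a b => ((a : ℕ), (b : ℕ)) ∈ E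
  have hHadj : ∀ a b, H.Adj a b ↔ a ≠ b ∧ (((a : ℕ), (b : ℕ)) ∈ E ∨ ((b : ℕ), (a : ℕ)) ∈ E) :=
    fun a b => SimpleGraph.fromRel_adj _ a b
  have hHG : H ≤ graph G := by
    intro a b hab
    rw [hHadj] at hab
    rcases hab.2 with h | h
    · exact (mem_elist.1 (hsub _ h)).2.2.2
    · exact (mem_elist.1 (hsub _ h)).2.2.2.symm
  have hH : H.IsAcyclic := SimpleGraph.IsAcyclic.anti hHG hG
  obtain ⟨e, he⟩ := List.exists_mem_of_ne_nil E hne
  obtain ⟨h1, h2, h3, h4⟩ := mem_elist.1 (hsub e he)
  have hadj : H.Adj ⟨e.1, h1⟩ ⟨e.2, h2⟩ := by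
    rw [hHadj]
    exact ⟨h4.ne, Or.inl he⟩
  obtain ⟨u, p, hup, huniq⟩ := exists_leaf hH hadj
  have hz : ∃ z ∈ E, z = ((u : ℕ), (p : ℕ)) ∨ z = ((p : ℕ), (u : ℕ)) := by
    rcases ((hHadj u p).1 hup).2 with h | h
    · exact ⟨_, h, Or.inl rfl⟩
    · exact ⟨_, h, Or.inr rfl⟩
  obtain ⟨z, hzE, hz⟩ := hz
  have hlf : lf E u = true := by
    unfold lf
    rw [decide_eq_true_eq]
    have h5 : (E.filter (inc u)).toFinset = {z} := by
      ext y
      rw [List.mem_toFinset, List.mem_filter, Finset.mem_singleton]
      constructor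
      · rintro ⟨hy, hyu⟩
        obtain ⟨hy1, hy2, hy3, hy4⟩ := mem_elist.1 (hsub y hy)
        obtain ⟨hz1, hz2, hz3, hz4⟩ := mem_elist.1 (hsub z hzE)
        unfold inc at hyu
        rw [Bool.or_eq_true, decide_eq_true_eq, decide_eq_true_eq] at hyu
        obtain ⟨y1, y2⟩ := y
        simp only at hyu hy1 hy2 hy3
        rcases hyu with rfl | rfl
        · have h6 : (⟨y2, hy2⟩ : Fin G.length) = p := by
            refine huniq _ ((hHadj _ _).2 ⟨?_, Or.inl hy⟩)
            intro h7
            have := congrArg Fin.val h7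
            simp only at this
            omega
          have h7 : y2 = p := congrArg Fin.val h6
          rcases hz with rfl | rfl
          · rw [h7]
          · simp only at hz3
            omega
        · have h6 : (⟨y1, hy1⟩ : Fin G.length) = p := by
            refine huniq _ ((hHadj _ _).2 ⟨?_, Or.inr hy⟩)
            intro h7
            have := congrArg Fin.val h7
            simp only at this
            omega
          have h7 : y1 = p := congrArg Fin.val h6
          rcases hz with rfl | rfl
          · simp only at hz3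
            omega
          · rw [h7]
      · rintro rfl
        refine ⟨hzE, ?_⟩
        unfold inc
        rcases hz with rfl | rfl <;> simp
    have h6 := List.toFinset_card_of_nodup (hE.filter (inc u))
    rw [h5, Finset.card_singleton] at h6
    exact h6.symm
  refine ⟨z, hzE, ?_⟩
  rcases hz with rfl | rfl
  · exact Or.inl hlf
  · exact Or.inr hlf

theorem inv_init {G : List (List ℕ)} (hG : (graph G).IsTree) (S : ℕ) : Inv G S (init G S) := by
  classical
  refine ⟨List.nodup_range, nodup_elist G, fun z hz => hz, ?_, ?_, ?_, ?_⟩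
  · intro z hz
    obtain ⟨h1, h2, -⟩ := mem_elist.1 hz
    exact ⟨List.mem_range.2 h1, List.mem_range.2 h2⟩
  · intro y hy
    have h1 := List.mem_of_mem_filter hy
    exact ⟨h1, List.mem_range.2 (mem_box.1 h1).1⟩
  · intro N hN
    constructor
    · rintro ⟨g, f, h1, h2, h3⟩
      have h4 : ∀ v < G.length, (g v).1 = cs (elist G) f v ∧ (g v).2.2 = 0 := by
        intro v hv
        obtain ⟨h5, h6⟩ := h1 v (List.mem_range.2 hv)
        have h7 : (v, g v) ∈ (box G.length S).filter
          fun y => decide (y.2.2.1 = 0) && decide (y.2.2.2 = 0) := h5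
        rw [List.mem_filter, Bool.and_eq_true, decide_eq_true_eq, decide_eq_true_eq] at h7
        obtain ⟨-, h8, h9⟩ := h7
        simp only at h8 h9
        refine ⟨?_, h9⟩
        rw [h6, h8, zero_add]
        rfl
      refine ⟨f, ⟨fun p hp => (h2 p hp).1, fun p hp => ?_⟩, ?_⟩
      · obtain ⟨h5, h6, -⟩ := mem_elist.1 hp
        have h7 := (h2 p hp).2
        rw [(h4 _ h5).1, (h4 _ h6).1] at h7
        exact h7
      · have h5 : ((List.range G.length).map fun v => (g v).2.2).sum = 0 := by
          rw [List.sum_eq_zero_iff]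
          intro x hx
          obtain ⟨v, hv, rfl⟩ := List.mem_map.1 hx
          exact (h4 v (List.mem_range.1 hv)).2
        have h6 : N = ((List.range G.length).map fun v => (g v).2.2).sum +
          ((elist G).map f).sum := h3
        rw [h6, h5, zero_add]
    · rintro ⟨f, ⟨h1, h2⟩, h3⟩
      refine ⟨fun v => (cs (elist G) f v, 0, 0), f, ?_, ?_, ?_⟩
      · intro v hv
        have hv' : v < G.length := List.mem_range.1 hv
        refine ⟨?_, by simp; rfl⟩
        change _ ∈ (box G.length S).filter
          fun y => decide (y.2.2.1 = 0) && decide (y.2.2.2 = 0)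
        rw [List.mem_filter]
        have h4 := cs_le (elist G) f v
        refine ⟨mem_box.2 ⟨hv', ?_, ?_, ?_⟩, by simp⟩
        · simp only
          omega
        · simp
        · simp
      · intro p hp
        exact ⟨h1 p hp, h2 p hp⟩
      · have h4 : (List.map (fun v => ((cs (elist G) f v, 0, 0) : ℕ × ℕ × ℕ).2.2)
          (List.range G.length)).sum = 0 := by simp
        change N = (List.map (fun v => ((cs (elist G) f v, 0, 0) : ℕ × ℕ × ℕ).2.2)
          (List.range G.length)).sum + ((elist G).map f).sum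
        rw [h4, h3, zero_add]
  · change (List.range G.length).length = (elist G).length + 1
    have h1 := hG.card_edgeFinset
    rw [card_elist, Fintype.card_fin] at h1
    rw [List.length_range, h1]

theorem inv_iter {G : List (List ℕ)} (hG : (graph G).IsTree) (S : ℕ) :
    ∀ k ≤ (elist G).length, Inv G S ((step G.length S)^[k] (init G S)) ∧
      ((step G.length S)^[k] (init G S)).2.1.length + k = (elist G).length := by
  intro k
  induction k with
  | zero =>
    intro _
    exact ⟨inv_init hG S, rfl⟩
  | succ k ih =>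
    intro hk
    obtain ⟨h1, h2⟩ := ih (by omega)
    rw [Function.iterate_succ_apply']
    have h3 := inv_step h1 (leaf_of_acyclic hG.isAcyclic h1.nE h1.subE (by
      intro h4
      rw [h4] at h2
      simp at h2
      omega))
    refine ⟨h3.1, ?_⟩
    have := h3.2
    omega

/-- **Correctness of the algorithm for trees.** -/
theorem algo_eq {G : List (List ℕ)} (hG : (graph G).IsTree) (hn : Nice (graph G)) :
    mE (graph G) = (algo G : ℕ∞) := by
  classical
  set S := bnd G with hS
  obtain ⟨hinv, hlen⟩ := inv_iter hG S _ le_rfl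
  set st := (step G.length S)^[(elist G).length] (init G S) with hst
  have hE : st.2.1 = [] := List.length_eq_zero_iff.1 (by omega)
  have hA : ∃ v, st.1 = [v] := by
    rw [← List.length_eq_one_iff, hinv.card, hE]
    rfl
  obtain ⟨v, hv⟩ := hA
  set P : ℕ → Bool := fun c => st.2.2.any fun y => decide (y.2.1 = y.2.2.1) &&
    decide (y.2.2.2 = c) with hP
  have hfeas : ∀ N ≤ S, P N = true ↔ ∃ f, PropL (elist G) f ∧ ((elist G).map f).sum = N := by
    intro N hN
    rw [← hinv.sol N hN, hv, hE]
    simp only [hP, List.any_eq_true, Bool.and_eq_true, decide_eq_true_eq]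
    constructor
    · rintro ⟨y, hy, h1, h2⟩
      obtain ⟨y1, y2, y3, y4⟩ := y
      have h3 := (hinv.tab _ hy).2
      rw [hv, List.mem_singleton] at h3
      simp only at h1 h2 h3
      subst h3
      refine ⟨fun _ => (y2, y3, y4), fun _ => 0, ?_, by simp, ?_⟩
      · intro w hw
        rw [List.mem_singleton] at hw
        subst hw
        exact ⟨hy, by simp [cs, h1]⟩
      · simp [h2]
    · rintro ⟨g, f, h1, -, h3⟩
      obtain ⟨h4, h5⟩ := h1 v (List.mem_singleton.2 rfl)
      refine ⟨_, h4, ?_, ?_⟩
      · simp only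
        rw [h5]
        simp [cs]
      · simp only
        rw [h3]
        simp
  obtain ⟨l, hl, hls⟩ := exists_small_sum hn
  rw [card_elist] at hls
  obtain ⟨f0, rfl⟩ := exists_liftf l
  rw [lsum_liftf] at hls
  have h0 := (proper_liftf G f0).1 hl
  have hP0 : P ((elist G).map f0).sum = true := (hfeas _ hls).2 ⟨f0, h0, rfl⟩
  have halgo : algo G = (((List.range (S + 1)).filter P).head?).elim 0 fun c => c := rfl
  rw [List.head?_filter] at halgo
  cases hf : (List.range (S + 1)).find? P with
  | none =>
    exfalso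
    rw [List.find?_eq_none] at hf
    refine hf ((elist G).map f0).sum (List.mem_range.2 ?_) hP0
    have : bnd G = (elist G).length * ((elist G).length + 1) := rfl
    omega
  | some c =>
    rw [hf, Option.elim_some] at halgo
    rw [List.find?_range_eq_some] at hf
    obtain ⟨h1, h2, h3⟩ := hf
    rw [List.mem_range] at h2
    rw [halgo]
    apply le_antisymm
    · rw [mE_graph_le]
      obtain ⟨f, hf1, hf2⟩ := (hfeas c (by omega)).1 h1
      exact ⟨f, hf1, hf2.le⟩
    · unfold mE
      refine le_iInf₂ fun l hl => ?_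
      obtain ⟨f, rfl⟩ := exists_liftf l
      rw [lsum_liftf]
      have h4 := (proper_liftf G f).1 hl
      rw [Nat.cast_le]
      by_contra hcon
      push Not at hcon
      have h5 := (hfeas _ (by omega)).2 ⟨f, h4, rfl⟩
      have h6 := h3 _ hcon
      rw [h5] at h6
      exact absurd h6 (by decide)

end Pool.Agent.R538.MS
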