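import Pool.Agent.R538.MS.Base

/-!
# Labellings in terms of the list of edges
-/

namespace Pool.Agent.R538.MS

open Pool.Agent.R550.GB Finset

theorem mem_prodd {α β : Type} {l : List α} {l' : List β} {a : α} {b : β} :
    (a, b) ∈ l ×ˢ l' ↔ a ∈ l ∧ b ∈ l' := List.pair_mem_product

/-- the list of the edges -/
def elist (A : List (List ℕ)) : List (ℕ × ℕ) :=
  ((List.range A.length) ×ˢ (List.range A.length)).filter fun p =>
    decide (p.1 < p.2) && (decide (p.2 ∈ A.getD p.1 []) || decide (p.1 ∈ A.getD p.2 []))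

theorem graph_adj {A : List (List ℕ)} {u v : Fin A.length} : (graph A).Adj u v ↔
    u ≠ v ∧ ((v : ℕ) ∈ A.getD u [] ∨ (u : ℕ) ∈ A.getD v []) := by
  unfold graph
  rw [SimpleGraph.fromRel_adj, Fin.getElem_fin, Fin.getElem_fin,
    List.getD_eq_getElem _ _ u.2, List.getD_eq_getElem _ _ v.2]

theorem mem_elist {A : List (List ℕ)} {p : ℕ × ℕ} : p ∈ elist A ↔
    ∃ (h1 : p.1 < A.length) (h2 : p.2 < A.length), p.1 < p.2 ∧
      (graph A).Adj ⟨p.1, h1⟩ ⟨p.2, h2⟩ := by
  unfold elist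
  rw [List.mem_filter]
  obtain ⟨a, b⟩ := p
  rw [mem_prodd, List.mem_range, List.mem_range]
  simp only [Bool.and_eq_true, Bool.or_eq_true, decide_eq_true_eq, graph_adj]
  constructor
  · rintro ⟨⟨h1, h2⟩, h3, h4⟩
    refine ⟨h1, h2, h3, ?_, h4⟩
    intro h
    have := congrArg Fin.val h
    simp only at this
    omega
  · rintro ⟨h1, h2, h3, _, h4⟩
    exact ⟨⟨h1, h2⟩, h3, h4⟩

theorem nodup_elist (A : List (List ℕ)) : (elist A).Nodup := by
  unfold elist
  exact List.Nodup.filter _ (List.Nodup.product List.nodup_range List.nodup_range)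

/-- the labelling of the graph given by a labelling of the list of edges -/
def liftf (n : ℕ) (f : ℕ × ℕ → ℕ) : Sym2 (Fin n) → ℕ :=
  Sym2.lift ⟨fun u v => f (min (u : ℕ) v, max (u : ℕ) v), fun u v => by
    change f (min (u : ℕ) v, max (u : ℕ) v) = f (min (v : ℕ) u, max (v : ℕ) u)
    rw [min_comm, max_comm]⟩

theorem liftf_mk {n : ℕ} (f : ℕ × ℕ → ℕ) {u v : Fin n} (h : u < v) :
    liftf n f s(u, v) = f (u, v) := by
  have h' : (u : ℕ) < v := h
  unfold liftf
  rw [Sym2.lift_mk]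
  simp only
  rw [min_eq_left h'.le, max_eq_right h'.le]

theorem exists_liftf {n : ℕ} (l : Sym2 (Fin n) → ℕ) : ∃ f, liftf n f = l := by
  refine ⟨fun p => if h : p.1 < n ∧ p.2 < n then l s(⟨p.1, h.1⟩, ⟨p.2, h.2⟩) else 0, ?_⟩
  funext e
  induction e using Sym2.ind with
  | _ u v =>
    unfold liftf
    rw [Sym2.lift_mk]
    simp only
    rcases le_total u v with h | h
    · have h' : (u : ℕ) ≤ v := h
      rw [dif_pos ⟨by simp, by simp⟩]
      simp only [min_eq_left h', max_eq_right h']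
    · have h' : (v : ℕ) ≤ u := h
      rw [dif_pos ⟨by simp, by simp⟩]
      simp only [min_eq_right h', max_eq_left h']
      rw [Sym2.eq_swap]

open Classical in
theorem sum_edges (A : List (List ℕ)) (f : ℕ × ℕ → ℕ) (Q : Sym2 (Fin A.length) → Prop)
    (Q' : ℕ × ℕ → Bool) (hQ : ∀ u v : Fin A.length, u < v → (Q s(u, v) ↔ Q' (u, v) = true)) :
    ∑ e ∈ (graph A).edgeFinset with Q e, liftf _ f e = (((elist A).filter Q').map f).sum := by
  rw [← List.sum_toFinset f ((nodup_elist A).filter _)]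
  symm
  have hp : ∀ p ∈ ((elist A).filter Q').toFinset, p.1 < A.length ∧ p.2 < A.length ∧
      p ∈ elist A ∧ Q' p = true := by
    intro p hp
    rw [List.mem_toFinset, List.mem_filter] at hp
    obtain ⟨h1, h2, -⟩ := mem_elist.1 hp.1
    exact ⟨h1, h2, hp.1, hp.2⟩
  refine Finset.sum_bij (fun p h => s(⟨p.1, (hp p h).1⟩, ⟨p.2, (hp p h).2.1⟩)) ?_ ?_ ?_ ?_
  · intro p h
    obtain ⟨h1, h2, h3, h4⟩ := hp p h
    obtain ⟨_, _, h5, h6⟩ := mem_elist.1 h3
    rw [mem_filter, SimpleGraph.mem_edgeFinset, SimpleGraph.mem_edgeSet]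
    refine ⟨h6, ?_⟩
    rw [hQ _ _ h5]
    exact h4
  · intro p h p' h' he
    obtain ⟨h1, h2, h3, h4⟩ := hp p h
    obtain ⟨h1', h2', h3', h4'⟩ := hp p' h'
    obtain ⟨_, _, h5, -⟩ := mem_elist.1 h3
    obtain ⟨_, _, h5', -⟩ := mem_elist.1 h3'
    rw [Sym2.eq_iff] at he
    simp only [Fin.mk.injEq] at he
    obtain ⟨a, b⟩ := p
    obtain ⟨c, d⟩ := p'
    simp only at he h5 h5' ⊢
    rcases he with ⟨rfl, rfl⟩ | ⟨rfl, rfl⟩
    · rfl
    · omega
  · intro e
    induction e using Sym2.ind with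
    | _ u v =>
      intro he
      rw [mem_filter, SimpleGraph.mem_edgeFinset, SimpleGraph.mem_edgeSet] at he
      obtain ⟨hadj, hq⟩ := he
      rcases lt_or_gt_of_ne hadj.ne with h | h
      · refine ⟨(u, v), ?_, rfl⟩
        rw [List.mem_toFinset, List.mem_filter]
        exact ⟨mem_elist.2 ⟨u.2, v.2, h, hadj⟩, (hQ u v h).1 hq⟩
      · refine ⟨(v, u), ?_, Sym2.eq_swap⟩
        rw [List.mem_toFinset, List.mem_filter]
        rw [Sym2.eq_swap] at hq
        exact ⟨mem_elist.2 ⟨v.2, u.2, h, hadj.symm⟩, (hQ v u h).1 hq⟩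
  · intro p h
    obtain ⟨h1, h2, h3, h4⟩ := hp p h
    obtain ⟨_, _, h5, -⟩ := mem_elist.1 h3
    rw [liftf_mk f (u := ⟨p.1, h1⟩) (v := ⟨p.2, h2⟩) h5]

/-- incidence of a vertex and an edge -/
def inc (v : ℕ) (p : ℕ × ℕ) : Bool := decide (p.1 = v) || decide (p.2 = v)

/-- the sum of the labels at a vertex -/
def cs (E : List (ℕ × ℕ)) (f : ℕ × ℕ → ℕ) (v : ℕ) : ℕ := ((E.filter (inc v)).map f).sum

theorem col_liftf (A : List (List ℕ)) (f : ℕ × ℕ → ℕ) (v : Fin A.length) :
    col (graph A) (liftf _ f) v = cs (elist A) f v := by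
  classical
  have h := sum_edges A f (fun e => v ∈ e) (inc v) (by
    intro u w huw
    unfold inc
    rw [Sym2.mem_iff]
    simp only [Bool.or_eq_true, decide_eq_true_eq, Fin.ext_iff]
    constructor
    · rintro (h | h)
      · exact Or.inl h.symm
      · exact Or.inr h.symm
    · rintro (h | h)
      · exact Or.inl h.symm
      · exact Or.inr h.symm)
  unfold col cs
  convert h

theorem lsum_liftf (A : List (List ℕ)) (f : ℕ × ℕ → ℕ) :
    lsum (graph A) (liftf _ f) = ((elist A).map f).sum := by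
  classical
  have h := sum_edges A f (fun _ => True) (fun _ => true) (by simp)
  have e1 : (elist A).filter (fun _ => true) = elist A := by simp
  rw [e1] at h
  rw [← h]
  unfold lsum
  simp

open Classical in
theorem card_elist (A : List (List ℕ)) : (graph A).edgeFinset.card = (elist A).length := by
  have h := lsum_liftf A (fun _ => 1)
  have h1 : liftf A.length (fun _ => 1) = fun _ => 1 := by
    funext e
    induction e using Sym2.ind with
    | _ u v => rfl
  rw [h1] at h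
  unfold lsum at h
  rw [← Finset.card_eq_sum_ones] at h
  rw [h]
  simp

/-- proper labellings of a list of edges -/
def PropL (E : List (ℕ × ℕ)) (f : ℕ × ℕ → ℕ) : Prop :=
  (∀ p ∈ E, 1 ≤ f p) ∧ ∀ p ∈ E, cs E f p.1 ≠ cs E f p.2

theorem proper_liftf (A : List (List ℕ)) (f : ℕ × ℕ → ℕ) :
    Proper (graph A) (liftf _ f) ↔ PropL (elist A) f := by
  constructor
  · rintro ⟨h1, h2⟩
    constructor
    · intro p hp
      obtain ⟨ha, hb, hlt, hadj⟩ := mem_elist.1 hp
      have h3 := h1 s(⟨p.1, ha⟩, ⟨p.2, hb⟩) hadj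
      rwa [liftf_mk f (u := ⟨p.1, ha⟩) (v := ⟨p.2, hb⟩) hlt] at h3
    · intro p hp
      obtain ⟨ha, hb, hlt, hadj⟩ := mem_elist.1 hp
      have h3 := h2 _ _ hadj
      rwa [col_liftf, col_liftf] at h3
  · rintro ⟨h1, h2⟩
    have key : ∀ u v : Fin A.length, (graph A).Adj u v → u < v →
        1 ≤ liftf _ f s(u, v) ∧ col (graph A) (liftf _ f) u ≠ col (graph A) (liftf _ f) v := by
      intro u v huv hlt
      have hp : ((u : ℕ), (v : ℕ)) ∈ elist A := mem_elist.2 ⟨u.2, v.2, hlt, huv⟩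
      rw [liftf_mk f hlt, col_liftf, col_liftf]
      exact ⟨h1 _ hp, h2 _ hp⟩
    constructor
    · intro e
      induction e using Sym2.ind with
      | _ u v =>
        intro he
        rw [SimpleGraph.mem_edgeSet] at he
        rcases lt_or_gt_of_ne he.ne with h | h
        · exact (key u v he h).1
        · rw [Sym2.eq_swap]
          exact (key v u he.symm h).1
    · intro u v huv
      rcases lt_or_gt_of_ne huv.ne with h | h
      · exact (key u v huv h).2
      · exact (key v u huv.symm h).2.symm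

theorem mE_graph_le {A : List (List ℕ)} (N : ℕ) : mE (graph A) ≤ (N : ℕ∞) ↔
    ∃ f, PropL (elist A) f ∧ ((elist A).map f).sum ≤ N := by
  rw [mE_le_iff]
  constructor
  · rintro ⟨l, hl, hs⟩
    obtain ⟨f, rfl⟩ := exists_liftf l
    exact ⟨f, (proper_liftf A f).1 hl, by rwa [← lsum_liftf]⟩
  · rintro ⟨f, hf, hs⟩
    exact ⟨liftf _ f, (proper_liftf A f).2 hf, by rwa [lsum_liftf]⟩

end Pool.Agent.R538.MS
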